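import Pool.Agent.TH767.LA.Defs

/-!
Distributions of random vectors on finite sets with positive weights, and an averaging lemma for
boxes.
-/

set_option autoImplicit false

namespace Pool.Agent.TH767.LA

open Finset

section mk

variable {n : ℕ} {ι : Type} (A : Finset ι) (wt : ι → ℝ) (V : ι → Fin n → ℝ)

open Classical in
theorem mk_sum (g : (Fin n → ℝ) → ℝ) :
    ∑ v ∈ A.image V, (∑ ω ∈ A.filter (fun ω => V ω = v), wt ω) / (∑ ω ∈ A, wt ω) * g v =
      (∑ ω ∈ A, wt ω * g (V ω)) / ∑ ω ∈ A, wt ω := by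
  rw [← Finset.sum_fiberwise_of_maps_to (s := A) (t := A.image V) (g := V)
    (fun ω hω => Finset.mem_image_of_mem V hω) (fun ω => wt ω * g (V ω)), Finset.sum_div]
  refine Finset.sum_congr rfl fun v _ => ?_
  rw [div_mul_eq_mul_div, Finset.sum_mul]
  congr 1
  refine Finset.sum_congr rfl fun ω hω => ?_
  rw [(Finset.mem_filter.1 hω).2]

open Classical in
/-- The distribution of the random vector `V` on `A` with probabilities proportional to `wt`. -/
noncomputable def mkDist (hne : A.Nonempty) (hpos : ∀ ω ∈ A, 0 < wt ω)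
    (hV : ∀ ω ∈ A, ∀ i, 0 < V ω i) : Distribution n where
  supp := A.image V
  prob v := (∑ ω ∈ A.filter (fun ω => V ω = v), wt ω) / (∑ ω ∈ A, wt ω)
  prob_pos v hv := by
    obtain ⟨ω, hω, rfl⟩ := Finset.mem_image.1 hv
    refine div_pos (Finset.sum_pos (fun ω' hω' => hpos ω' (Finset.mem_filter.1 hω').1)
      ⟨ω, Finset.mem_filter.2 ⟨hω, rfl⟩⟩) (Finset.sum_pos hpos hne)
  prob_sum := by
    have h := mk_sum A wt V (fun _ => 1)
    simp only [mul_one] at h
    rw [h]
    exact div_self (Finset.sum_pos hpos hne).ne'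
  val_pos v hv := by
    obtain ⟨ω, hω, rfl⟩ := Finset.mem_image.1 hv
    exact hV ω hω

variable {A wt V}

theorem mkDist_sum (hne : A.Nonempty) (hpos : ∀ ω ∈ A, 0 < wt ω)
    (hV : ∀ ω ∈ A, ∀ i, 0 < V ω i) (g : (Fin n → ℝ) → ℝ) :
    ∑ v ∈ (mkDist A wt V hne hpos hV).supp, (mkDist A wt V hne hpos hV).prob v * g v =
      (∑ ω ∈ A, wt ω * g (V ω)) / ∑ ω ∈ A, wt ω := by
  classical
  exact mk_sum A wt V g

theorem mem_mkDist_supp (hne : A.Nonempty) (hpos : ∀ ω ∈ A, 0 < wt ω)
    (hV : ∀ ω ∈ A, ∀ i, 0 < V ω i) {v : Fin n → ℝ} (hv : v ∈ (mkDist A wt V hne hpos hV).supp) :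
    ∃ ω ∈ A, V ω = v := by
  classical
  exact Finset.mem_image.1 hv

end mk

section box

/-- The vectors of `k` natural numbers less than `L`. -/
def box (k L : ℕ) : Finset (Fin k → ℕ) := Fintype.piFinset fun _ => range L

theorem mem_box {k L : ℕ} {b : Fin k → ℕ} : b ∈ box k L ↔ ∀ i, b i < L := by
  simp [box]

theorem card_box (k L : ℕ) : (box k L).card = L ^ k := by
  simp [box]

theorem box_average {k L : ℕ} (i : Fin k) (F : (Fin k → ℕ) → ℝ) :
    ∑ b ∈ box k L, ∑ a ∈ range L, F (Function.update b i a) = L * ∑ b ∈ box k L, F b := by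
  have h1 : ∑ x ∈ box k L ×ˢ range L, F (Function.update x.1 i x.2) =
      ∑ x ∈ box k L ×ˢ range L, F x.1 := by
    refine Finset.sum_nbij' (fun x => (Function.update x.1 i x.2, x.1 i))
      (fun x => (Function.update x.1 i x.2, x.1 i)) ?_ ?_ ?_ ?_ ?_
    · intro x hx
      rw [Finset.mem_product, mem_box, Finset.mem_range] at hx ⊢
      refine ⟨fun i' => ?_, hx.1 i⟩
      by_cases h : i' = i
      · subst h
        simpa using hx.2
      · have h1 : Function.update x.1 i x.2 i' = x.1 i' := Function.update_of_ne h _ _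
        show Function.update x.1 i x.2 i' < L
        rw [h1]
        exact hx.1 i'
    · intro x hx
      rw [Finset.mem_product, mem_box, Finset.mem_range] at hx ⊢
      refine ⟨fun i' => ?_, hx.1 i⟩
      by_cases h : i' = i
      · subst h
        simpa using hx.2
      · have h1 : Function.update x.1 i x.2 i' = x.1 i' := Function.update_of_ne h _ _
        show Function.update x.1 i x.2 i' < L
        rw [h1]
        exact hx.1 i'
    · intro x _
      ext1
      · simp
      · simp
    · intro x _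
      ext1
      · simp
      · simp
    · intro x _
      rfl
  rw [Finset.sum_product, Finset.sum_product] at h1
  rw [h1, Finset.mul_sum]
  refine Finset.sum_congr rfl fun b _ => ?_
  simp

theorem box_le {k L : ℕ} (hL : 0 < L) (i : Fin k) (F G : (Fin k → ℕ) → ℝ)
    (h : ∀ b ∈ box k L, ∑ a ∈ range L, F (Function.update b i a) ≤
      ∑ a ∈ range L, G (Function.update b i a)) :
    ∑ b ∈ box k L, F b ≤ ∑ b ∈ box k L, G b := by
  have h1 := Finset.sum_le_sum h
  rw [box_average, box_average] at h1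
  exact le_of_mul_le_mul_left h1 (by exact_mod_cast hL)

end box

end Pool.Agent.TH767.LA
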