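import Pool.Agent.TH767.LA.Line
import Pool.Agent.TH767.LA.Dist

/-!
The bad distributions. One of the bidders `0, ..., k - 1`, the exceptional one, has value `r s` for
some level `s < m`; the others have values `1 + ε (b i + 1) / L` with `b i < L`; bidder `k` has
value `1`. The weights depend on the residue of the sum of the `b i` modulo `M`.
-/

set_option autoImplicit false

namespace Pool.Agent.TH767.LA

open Finset

/-- The parameters. -/
structure Par where
  k : ℕ
  m : ℕ
  M : ℕ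
  l : ℕ
  κ : ℕ → ℕ
  y : ℕ → ℝ
  ε : ℝ
  hM : 0 < M
  hκ0 : κ 0 = M
  hκm : κ m = 0
  hκ : ∀ s, κ (s + 1) ≤ κ s
  hy : ∀ s, s < m → 0 < y s
  hym : 0 ≤ y m
  hy' : ∀ s, s < m → y (s + 1) < y s
  hε : 0 < ε
  hyε : (1 + ε) * y 0 < 1
  hB : ∀ s, s < m → (1 + ε) * (y s - y (s + 1)) * κ (s + 1) ≤
    ((κ s : ℝ) - κ (s + 1)) * (1 - (1 + ε) * y s)

namespace Par

variable (P : Par)

/-- The number of levels of the bidders which are not exceptional. -/
def L : ℕ := P.M * P.l + P.M

/-- The values of the exceptional bidder. -/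
noncomputable def r (s : ℕ) : ℝ := (P.y s)⁻¹

/-- The values of the other bidders. -/
noncomputable def β (a : ℕ) : ℝ := 1 + P.ε * (a + 1) / P.L

/-- The sum of the levels without bidder `j`. -/
def csum {k : ℕ} (j : Fin k) (b : Fin k → ℕ) : ℕ := ∑ i ∈ univ.erase j, b i

/-- The residue of the sum of the levels without bidder `j`. -/
def res (j : Fin P.k) (b : Fin P.k → ℕ) : ℕ := csum j b % P.M

/-- Indicator of `ρ < κ s`. -/
noncomputable def e (ρ s : ℕ) : ℝ := if ρ < P.κ s then 1 else 0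

open Classical in
/-- Indicator of the interior. -/
noncomputable def inn (j : Fin P.k) (b : Fin P.k → ℕ) : ℝ :=
  if ∀ i, i ≠ j → b i < P.M * P.l then 1 else 0

/-- The weight of the profiles in which no bidder with a high value can be served. -/
noncomputable def wN (j : Fin P.k) (s : ℕ) (b : Fin P.k → ℕ) : ℝ :=
  (P.y s - P.y (s + 1)) * P.e (P.res j b) (s + 1) * P.inn j b

/-- The weight of the profiles in which the exceptional bidder buys. -/
noncomputable def wA (j : Fin P.k) (s : ℕ) (b : Fin P.k → ℕ) : ℝ :=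
  P.y s * (P.e (P.res j b) s - P.e (P.res j b) (s + 1))

/-- The weights. -/
noncomputable def wt (j : Fin P.k) (s : ℕ) (b : Fin P.k → ℕ) : ℝ := P.wN j s b + P.wA j s b

/-- The dual weights. -/
noncomputable def z (j : Fin P.k) (s : ℕ) (b : Fin P.k → ℕ) : ℝ :=
  P.e (P.res j b) s - P.e (P.res j b) (s + 1)

/-- The values of the first `k` bidders. -/
noncomputable def prof (j : Fin P.k) (s : ℕ) (b : Fin P.k → ℕ) : Fin P.k → ℝ :=
  fun i => if i = j then P.r s else P.β (b i)

/-- The values of all bidders. -/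
noncomputable def V (j : Fin P.k) (s : ℕ) (b : Fin P.k → ℕ) : Fin (P.k + 1) → ℝ :=
  Fin.snoc (α := fun _ => ℝ) (P.prof j s b) 1

theorem hL : 0 < P.L := by
  have := P.hM
  unfold L
  omega

theorem κ_anti : Antitone P.κ := antitone_nat_of_succ_le P.hκ

theorem κ_le (s : ℕ) : P.κ s ≤ P.M := by
  rw [← P.hκ0]
  exact P.κ_anti (Nat.zero_le s)

theorem e_nonneg (ρ s : ℕ) : 0 ≤ P.e ρ s := by
  unfold e
  split_ifs <;> norm_num

theorem e_anti (ρ s : ℕ) : P.e ρ (s + 1) ≤ P.e ρ s := by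
  unfold e
  have := P.hκ s
  split_ifs with h1 h2 h2
  · exact le_refl _
  · omega
  · norm_num
  · exact le_refl _

theorem e_zero {ρ : ℕ} (h : ρ < P.M) : P.e ρ 0 = 1 := by
  unfold e
  rw [P.hκ0, if_pos h]

theorem e_m (ρ : ℕ) : P.e ρ P.m = 0 := by
  unfold e
  rw [P.hκm]
  simp

theorem res_lt (j : Fin P.k) (b : Fin P.k → ℕ) : P.res j b < P.M := Nat.mod_lt _ P.hM

theorem inn_nonneg (j : Fin P.k) (b : Fin P.k → ℕ) : 0 ≤ P.inn j b := by
  unfold inn
  split_ifs <;> norm_num

theorem inn_le_one (j : Fin P.k) (b : Fin P.k → ℕ) : P.inn j b ≤ 1 := by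
  unfold inn
  split_ifs <;> norm_num

theorem wN_nonneg (j : Fin P.k) {s : ℕ} (hs : s < P.m) (b : Fin P.k → ℕ) : 0 ≤ P.wN j s b :=
  mul_nonneg (mul_nonneg (sub_nonneg.2 (P.hy' s hs).le) (P.e_nonneg _ _)) (P.inn_nonneg _ _)

theorem wA_nonneg (j : Fin P.k) {s : ℕ} (hs : s < P.m) (b : Fin P.k → ℕ) : 0 ≤ P.wA j s b :=
  mul_nonneg (P.hy s hs).le (sub_nonneg.2 (P.e_anti _ _))

theorem wt_nonneg (j : Fin P.k) {s : ℕ} (hs : s < P.m) (b : Fin P.k → ℕ) : 0 ≤ P.wt j s b :=
  add_nonneg (P.wN_nonneg j hs b) (P.wA_nonneg j hs b)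

theorem z_nonneg (j : Fin P.k) (s : ℕ) (b : Fin P.k → ℕ) : 0 ≤ P.z j s b :=
  sub_nonneg.2 (P.e_anti _ _)

theorem r_pos {s : ℕ} (hs : s < P.m) : 0 < P.r s := inv_pos.2 (P.hy s hs)

theorem r_mul {s : ℕ} (hs : s < P.m) : P.r s * P.y s = 1 := inv_mul_cancel₀ (P.hy s hs).ne'

theorem r_lt {s : ℕ} (hs : s + 1 < P.m) : P.r s < P.r (s + 1) :=
  (inv_lt_inv₀ (P.hy s (by omega)) (P.hy (s + 1) hs)).2 (P.hy' s (by omega))

theorem y_le {s s' : ℕ} (h : s ≤ s') (hs : s' ≤ P.m) : P.y s' ≤ P.y s := by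
  induction s', h using Nat.le_induction with
  | base => exact le_refl _
  | succ n hn ih => exact ((P.hy' n (by omega)).le).trans (ih (by omega))

theorem r_mono {s s' : ℕ} (h : s < s') (hs : s' < P.m) : P.r s < P.r s' := by
  refine (inv_lt_inv₀ (P.hy s (by omega)) (P.hy s' hs)).2 ?_
  have h1 := P.y_le (s := s + 1) (s' := s') h hs.le
  have h2 := P.hy' s (by omega)
  linarith

theorem β_gt (a : ℕ) : 1 < P.β a := by
  unfold β
  have h1 : 0 < (P.L : ℝ) := by exact_mod_cast P.hL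
  have h2 := P.hε
  have : 0 < P.ε * (a + 1) / P.L := by positivity
  linarith

theorem β_lt {a a' : ℕ} (h : a < a') : P.β a < P.β a' := by
  unfold β
  have h1 : 0 < (P.L : ℝ) := by exact_mod_cast P.hL
  have h2 := P.hε
  have h3 : (a : ℝ) < a' := by exact_mod_cast h
  have : P.ε * (a + 1) / P.L < P.ε * (a' + 1) / P.L := by
    apply div_lt_div_of_pos_right _ h1
    nlinarith
  linarith

theorem β_inj : Function.Injective P.β := by
  intro a a' h
  by_contra hne
  rcases Nat.lt_or_gt_of_ne hne with h1 | h1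
  · exact (P.β_lt h1).ne h
  · exact (P.β_lt h1).ne h.symm

theorem β_le {a : ℕ} (h : a < P.L) : P.β a ≤ 1 + P.ε := by
  unfold β
  have h1 : 0 < (P.L : ℝ) := by exact_mod_cast P.hL
  have h3 : (a : ℝ) + 1 ≤ P.L := by exact_mod_cast h
  have : P.ε * (a + 1) / P.L ≤ P.ε := by
    rw [div_le_iff₀ h1]
    exact mul_le_mul_of_nonneg_left h3 P.hε.le
  linarith

theorem r_gt {s : ℕ} (hs : s < P.m) : 1 + P.ε < P.r s := by
  have h1 := P.y_le (Nat.zero_le s) hs.le
  have h2 := P.hε
  have h3 := P.hyε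
  have h4 := P.hy s hs
  have h5 : (1 + P.ε) * P.y s < 1 := by nlinarith
  have h6 := P.r_mul hs
  have h7 := P.r_pos hs
  by_contra hcon
  push Not at hcon
  nlinarith

theorem β_lt_r {a s : ℕ} (ha : a < P.L) (hs : s < P.m) : P.β a < P.r s :=
  (P.β_le ha).trans_lt (P.r_gt hs)

/-! ### The lines in the direction of the exceptional bidder -/

theorem tail_w (j : Fin P.k) (b : Fin P.k → ℕ) {s : ℕ} (hs : s ≤ P.m) :
    ∑ s' ∈ Ico s P.m, P.wt j s' b ≤ P.y s * P.e (P.res j b) s := by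
  obtain ⟨d, hd⟩ : ∃ d, s + d = P.m := ⟨P.m - s, by omega⟩
  induction d generalizing s with
  | zero =>
    have : s = P.m := by omega
    subst this
    simp [P.e_m]
  | succ d ih =>
    rw [Finset.sum_eq_sum_Ico_succ_bot (by omega)]
    have h1 := ih (s := s + 1) (by omega) (by omega)
    have h2 : P.wN j s b ≤ (P.y s - P.y (s + 1)) * P.e (P.res j b) (s + 1) :=
      mul_le_of_le_one_right (mul_nonneg (sub_nonneg.2 (P.hy' s (by omega)).le)
        (P.e_nonneg _ _)) (P.inn_le_one _ _)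
    have h3 : P.wt j s b = P.wN j s b + P.wA j s b := rfl
    have h4 : P.wA j s b = P.y s * (P.e (P.res j b) s - P.e (P.res j b) (s + 1)) := rfl
    rw [h3, h4]
    linarith

theorem tail_z (j : Fin P.k) (b : Fin P.k → ℕ) {s : ℕ} (hs : s ≤ P.m) :
    ∑ s' ∈ Ico s P.m, P.z j s' b = P.e (P.res j b) s := by
  obtain ⟨d, hd⟩ : ∃ d, s + d = P.m := ⟨P.m - s, by omega⟩
  induction d generalizing s with
  | zero =>
    have : s = P.m := by omega
    subst this
    simp [P.e_m]
  | succ d ih =>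
    rw [Finset.sum_eq_sum_Ico_succ_bot (by omega), ih (s := s + 1) (by omega) (by omega)]
    unfold z
    ring

theorem line_exc (j : Fin P.k) (b : Fin P.k → ℕ) {s : ℕ} (hs : s < P.m) :
    P.r s * ∑ s' ∈ Ico s P.m, P.wt j s' b ≤ ∑ s' ∈ Ico s P.m, P.z j s' b := by
  rw [P.tail_z j b hs.le]
  have h1 := mul_le_mul_of_nonneg_left (P.tail_w j b hs.le) (P.r_pos hs).le
  rw [← mul_assoc, P.r_mul hs, one_mul] at h1
  exact h1

/-! ### The lines in the directions of the other bidders -/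

theorem sum_e (s : ℕ) : ∑ ρ ∈ range P.M, P.e ρ s = P.κ s := by
  unfold e
  rw [Finset.sum_boole]
  congr 1
  have : (range P.M).filter (fun ρ => ρ < P.κ s) = range (P.κ s) := by
    ext ρ
    have := P.κ_le s
    simp only [Finset.mem_filter, Finset.mem_range]
    constructor
    · exact fun h => h.2
    · exact fun h => ⟨by omega, h⟩
  rw [this, Finset.card_range]

/-- The contribution of a residue to the dual constraints. -/
noncomputable def G (s ρ : ℕ) : ℝ :=
  (P.e ρ s - P.e ρ (s + 1)) * (1 - (1 + P.ε) * P.y s) -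
    (1 + P.ε) * (P.y s - P.y (s + 1)) * P.e ρ (s + 1)

theorem sum_G {s : ℕ} (hs : s < P.m) : 0 ≤ ∑ ρ ∈ range P.M, P.G s ρ := by
  unfold G
  rw [Finset.sum_sub_distrib, ← Finset.sum_mul, ← Finset.mul_sum, Finset.sum_sub_distrib,
    P.sum_e, P.sum_e]
  exact sub_nonneg.2 (P.hB s hs)

theorem csum_update (j i : Fin P.k) (hij : i ≠ j) (b : Fin P.k → ℕ) (a : ℕ) :
    csum j (Function.update b i a) = (∑ i' ∈ (univ.erase j).erase i, b i') + a := by
  unfold csum
  rw [← Finset.sum_erase_add (univ.erase j) _ (Finset.mem_erase.2 ⟨hij, Finset.mem_univ i⟩),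
    Function.update_self]
  congr 1
  refine Finset.sum_congr rfl fun i' hi' => ?_
  rw [Function.update_of_ne (Finset.ne_of_mem_erase hi')]

theorem inn_update_zero (j i : Fin P.k) (hij : i ≠ j) (b : Fin P.k → ℕ) {a : ℕ}
    (ha : P.M * P.l ≤ a) : P.inn j (Function.update b i a) = 0 := by
  unfold inn
  rw [if_neg]
  intro h
  have := h i hij
  rw [Function.update_self] at this
  omega

theorem line_other (j i : Fin P.k) (hij : i ≠ j) (b : Fin P.k → ℕ) {s : ℕ} (hs : s < P.m)
    {a : ℕ} (ha : a < P.L) :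
    P.β a * ∑ a' ∈ Ico a P.L, P.wt j s (Function.update b i a') ≤
      ∑ a' ∈ Ico a P.L, P.z j s (Function.update b i a') := by
  have hw : 0 ≤ ∑ a' ∈ Ico a P.L, P.wt j s (Function.update b i a') :=
    Finset.sum_nonneg fun a' _ => P.wt_nonneg j hs _
  have h1 := mul_le_mul_of_nonneg_right (P.β_le ha) hw
  refine h1.trans ?_
  rw [← sub_nonneg, Finset.mul_sum, ← Finset.sum_sub_distrib]
  have hε := P.hε
  have hy0 : (1 + P.ε) * P.y s < 1 := by
    have h2 := P.y_le (Nat.zero_le s) hs.le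
    have h3 := P.hyε
    nlinarith
  refine tail_nonneg P.M (P.M * P.l) P.hM _
    (fun a' => P.G s (((∑ i' ∈ (univ.erase j).erase i, b i') + a') % P.M)) ?_ ?_ ?_ a
  · intro a' _
    have h2 : P.res j (Function.update b i a') =
        ((∑ i' ∈ (univ.erase j).erase i, b i') + a') % P.M := by
      unfold res
      rw [P.csum_update j i hij]
    unfold z wt wN wA G
    rw [h2]
    have h3 : (1 + P.ε) * ((P.y s - P.y (s + 1)) *
        P.e (((∑ i' ∈ (univ.erase j).erase i, b i') + a') % P.M) (s + 1) *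
          P.inn j (Function.update b i a')) ≤
        (1 + P.ε) * ((P.y s - P.y (s + 1)) *
          P.e (((∑ i' ∈ (univ.erase j).erase i, b i') + a') % P.M) (s + 1)) := by
      refine mul_le_mul_of_nonneg_left ?_ (by linarith)
      exact mul_le_of_le_one_right (mul_nonneg (sub_nonneg.2 (P.hy' s hs).le)
        (P.e_nonneg _ _)) (P.inn_le_one _ _)
    linarith
  · intro a' ha' _
    unfold z wt wN wA
    rw [P.inn_update_zero j i hij b ha']
    have h3 : 0 ≤ (P.e (P.res j (Function.update b i a')) s -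
        P.e (P.res j (Function.update b i a')) (s + 1)) * (1 - (1 + P.ε) * P.y s) :=
      mul_nonneg (sub_nonneg.2 (P.e_anti _ _)) (by linarith)
    linarith
  · intro a'
    rw [window_sum]
    exact P.sum_G hs

end Par

end Pool.Agent.TH767.LA
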