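import Pool.Agent.TH767.LA.Price

/-!
The bound on the ratio given by the bad distributions.
-/

set_option autoImplicit false

namespace Pool.Agent.TH767.LA

open Finset
open scoped ENNReal

namespace Par

variable (P : Par)

open Classical in
/-- The profiles with positive weight. -/
noncomputable def Ω : Finset (Fin P.k × (Fin P.k → ℕ) × ℕ) :=
  ((univ : Finset (Fin P.k)) ×ˢ (box P.k P.L ×ˢ range P.m)).filter
    fun ω => 0 < P.wt ω.1 ω.2.2 ω.2.1

theorem mem_Ω {ω : Fin P.k × (Fin P.k → ℕ) × ℕ} (h : ω ∈ P.Ω) :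
    ω.2.1 ∈ box P.k P.L ∧ ω.2.2 < P.m ∧ 0 < P.wt ω.1 ω.2.2 ω.2.1 := by
  unfold Ω at h
  rw [Finset.mem_filter, Finset.mem_product, Finset.mem_product, Finset.mem_range] at h
  exact ⟨h.1.2.1, h.1.2.2, h.2⟩

theorem sum_Ω (g : (Fin (P.k + 1) → ℝ) → ℝ) :
    ∑ ω ∈ P.Ω, P.wt ω.1 ω.2.2 ω.2.1 * g (P.V ω.1 ω.2.2 ω.2.1) =
      ∑ j : Fin P.k, ∑ b ∈ box P.k P.L, ∑ s ∈ range P.m, P.wt j s b * g (P.V j s b) := by
  classical
  have h1 : ∑ ω ∈ P.Ω, P.wt ω.1 ω.2.2 ω.2.1 * g (P.V ω.1 ω.2.2 ω.2.1) =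
      ∑ ω ∈ (univ : Finset (Fin P.k)) ×ˢ (box P.k P.L ×ˢ range P.m),
        P.wt ω.1 ω.2.2 ω.2.1 * g (P.V ω.1 ω.2.2 ω.2.1) := by
    unfold Ω
    rw [Finset.sum_filter]
    refine Finset.sum_congr rfl fun ω hω => ?_
    rw [Finset.mem_product, Finset.mem_product, Finset.mem_range] at hω
    split_ifs with h
    · rfl
    · have h2 := P.wt_nonneg ω.1 hω.2.2 ω.2.1
      have h3 : P.wt ω.1 ω.2.2 ω.2.1 = 0 := le_antisymm (not_lt.1 h) h2
      rw [h3, zero_mul]
  rw [h1, Finset.sum_product]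
  refine Finset.sum_congr rfl fun j _ => ?_
  rw [Finset.sum_product]

theorem sum_z (j : Fin P.k) (b : Fin P.k → ℕ) : ∑ s ∈ range P.m, P.z j s b = 1 := by
  have h := P.tail_z j b (Nat.zero_le P.m)
  rw [← Finset.range_eq_Ico, P.e_zero (P.res_lt j b)] at h
  exact h

theorem Z_eq : P.Z = P.k * (P.L : ℝ) ^ P.k := by
  unfold Z
  simp only [P.sum_z]
  rw [Finset.sum_const, Finset.sum_const, card_box]
  simp

theorem Ω_nonempty (hk : 0 < P.k) : P.Ω.Nonempty := by
  classical
  by_contra hcon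
  have h0 : (fun _ => 0) ∈ box P.k P.L := mem_box.2 fun _ => P.hL
  have h1 := P.sum_z ⟨0, hk⟩ (fun _ => 0)
  have h2 : ∑ s ∈ range P.m, P.z ⟨0, hk⟩ s (fun _ => 0) = 0 := by
    refine Finset.sum_eq_zero fun s hs => ?_
    have hs' : s < P.m := Finset.mem_range.1 hs
    by_contra hz
    have h3 : 0 < P.z ⟨0, hk⟩ s (fun _ => 0) :=
      lt_of_le_of_ne (P.z_nonneg _ _ _) (Ne.symm hz)
    have h4 : 0 < P.wt ⟨0, hk⟩ s (fun _ => 0) :=
      add_pos_of_nonneg_of_pos (P.wN_nonneg _ hs' _) (mul_pos (P.hy s hs') h3)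
    refine hcon ⟨(⟨0, hk⟩, fun _ => 0, s), ?_⟩
    unfold Ω
    rw [Finset.mem_filter, Finset.mem_product, Finset.mem_product]
    exact ⟨⟨Finset.mem_univ _, h0, hs⟩, h4⟩
  rw [h1] at h2
  exact one_ne_zero h2

/-- The bad distribution. -/
noncomputable def D (hk : 0 < P.k) : Distribution (P.k + 1) :=
  mkDist P.Ω (fun ω => P.wt ω.1 ω.2.2 ω.2.1) (fun ω => P.V ω.1 ω.2.2 ω.2.1)
    (P.Ω_nonempty hk) (fun _ hω => (P.mem_Ω hω).2.2)
    (fun ω hω => P.V_pos ω.1 (P.mem_Ω hω).2.1 ω.2.1)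

/-- The total weight. -/
noncomputable def T : ℝ := ∑ ω ∈ P.Ω, P.wt ω.1 ω.2.2 ω.2.1

theorem T_pos (hk : 0 < P.k) : 0 < P.T :=
  Finset.sum_pos (fun _ hω => (P.mem_Ω hω).2.2) (P.Ω_nonempty hk)

theorem D_sum (hk : 0 < P.k) (g : (Fin (P.k + 1) → ℝ) → ℝ) :
    ∑ v ∈ (P.D hk).supp, (P.D hk).prob v * g v =
      (∑ j : Fin P.k, ∑ b ∈ box P.k P.L, ∑ s ∈ range P.m, P.wt j s b * g (P.V j s b)) / P.T := by
  unfold D
  rw [mkDist_sum, P.sum_Ω]
  rfl

theorem mem_D {hk : 0 < P.k} {v : Fin (P.k + 1) → ℝ} (hv : v ∈ (P.D hk).supp) :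
    ∃ j s b, s < P.m ∧ v = P.V j s b := by
  obtain ⟨ω, hω, rfl⟩ := mem_mkDist_supp _ _ _ hv
  exact ⟨ω.1, ω.2.2, ω.2.1, (P.mem_Ω hω).2.1, rfl⟩

theorem top_V (j : Fin P.k) {s : ℕ} (hs : s < P.m) (b : Fin P.k → ℕ) :
    top P.k (P.V j s b) = univ.erase (Fin.last P.k) := by
  classical
  ext i
  refine Fin.lastCases ?_ (fun i => ?_) i
  · simp only [top, Finset.mem_filter, Finset.mem_univ, true_and, Finset.mem_erase, ne_eq,
      not_true_eq_false, false_and, iff_false, not_lt]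
    have h1 : (univ.erase (Fin.last P.k)).card = P.k := by
      rw [Finset.card_erase_of_mem (Finset.mem_univ _), Finset.card_univ, Fintype.card_fin]
      omega
    calc P.k = (univ.erase (Fin.last P.k)).card := h1.symm
      _ ≤ _ := Finset.card_le_card fun i' hi' => by
        rw [Finset.mem_filter]
        refine ⟨Finset.mem_univ _, Or.inl ?_⟩
        rw [V_last]
        obtain ⟨i'', rfl⟩ := Fin.exists_castSucc_eq.2 (Finset.ne_of_mem_erase hi')
        exact P.V_gt j hs b i''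
  · simp only [top, Finset.mem_filter, Finset.mem_univ, true_and, Finset.mem_erase, ne_eq,
      and_true]
    refine iff_of_true ?_ (Fin.castSucc_lt_last i).ne
    have h1 : ((univ.erase (Fin.last P.k)).erase i.castSucc).card = P.k - 1 := by
      rw [Finset.card_erase_of_mem (Finset.mem_erase.2 ⟨(Fin.castSucc_lt_last i).ne,
        Finset.mem_univ _⟩), Finset.card_erase_of_mem (Finset.mem_univ _), Finset.card_univ,
        Fintype.card_fin]
      omega
    have hk : 0 < P.k := Fin.pos i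
    refine lt_of_le_of_lt (b := P.k - 1) ?_ (by omega)
    rw [← h1]
    refine Finset.card_le_card fun i' hi' => ?_
    rw [Finset.mem_filter] at hi'
    rw [Finset.mem_erase, Finset.mem_erase]
    refine ⟨?_, ?_, Finset.mem_univ _⟩
    · rintro rfl
      rcases hi'.2 with h | h
      · exact lt_irrefl _ h
      · exact lt_irrefl _ h.2
    · rintro rfl
      rw [V_last] at hi'
      have := P.V_gt j hs b i
      rcases hi'.2 with h | h
      · linarith
      · linarith [h.1]

theorem top_D {hk : 0 < P.k} {v : Fin (P.k + 1) → ℝ} (hv : v ∈ (P.D hk).supp) :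
    top P.k v = univ.erase (Fin.last P.k) := by
  obtain ⟨j, s, b, hs, rfl⟩ := P.mem_D hv
  exact P.top_V j hs b

theorem event_D {hk : 0 < P.k} {v₀ : Fin (P.k + 1) → ℝ} (hv₀ : v₀ ∈ (P.D hk).supp) :
    event (P.D hk) (univ.erase (Fin.last P.k)) v₀ = (P.D hk).supp := by
  classical
  unfold event
  rw [Finset.filter_eq_self]
  intro v hv
  obtain ⟨j, s, b, hs, rfl⟩ := P.mem_D hv
  obtain ⟨j₀, s₀, b₀, hs₀, rfl⟩ := P.mem_D hv₀
  have h1 : ∀ i : Fin (P.k + 1), i ∉ univ.erase (Fin.last P.k) → i = Fin.last P.k := by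
    intro i hi
    simpa using hi
  refine ⟨?_, ?_⟩
  · intro i hi
    rw [h1 i hi, V_last, V_last]
  · intro i hi i' hi'
    rw [h1 i' hi', V_last]
    obtain ⟨i'', rfl⟩ := Fin.exists_castSucc_eq.2 (Finset.ne_of_mem_erase hi)
    exact (P.V_gt j hs b i'').le

open Classical in
/-- The lookahead mechanism for the bad distribution. -/
noncomputable def Lk (K : Finset (Fin (P.k + 1))) : Mechanism (P.k + 1) :=
  if K = univ.erase (Fin.last P.k) then (P.pricing False).mech else zeroMech (P.k + 1)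

theorem revenue_pricing (hk : 0 < P.k) (d : Prop) [Decidable d] :
    revenue (P.D hk) (P.pricing d).mech =
      (P.Z + if d then ∑ j : Fin P.k, ∑ b ∈ box P.k P.L, ∑ s ∈ range P.m, P.wN j s b
        else 0) / P.T := by
  unfold revenue
  rw [P.D_sum hk fun v => ∑ i, (P.pricing d).mech.pay v i]
  congr 1
  unfold Z
  have h1 : ∀ j : Fin P.k, ∀ b ∈ box P.k P.L, ∀ s ∈ range P.m,
      P.wt j s b * ∑ i, (P.pricing d).mech.pay (P.V j s b) i =
        P.z j s b + (if d then P.wN j s b else 0) := by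
    intro j b hb s hs
    rw [P.weighted_pay d j (Finset.mem_range.1 hs) hb]
    congr
  rw [Finset.sum_congr rfl fun j _ => Finset.sum_congr rfl fun b hb =>
    Finset.sum_congr rfl fun s hs => h1 j b hb s hs]
  split_ifs
  · simp only [Finset.sum_add_distrib]
  · simp only [add_zero]

theorem isLookahead (hk : 0 < P.k) : IsLookahead P.k (P.D hk) P.Lk where
  valid K := by
    unfold Lk
    split_ifs
    · exact P.pricing_valid False
    · exact zeroMech_valid _
  outside K := by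
    unfold Lk
    split_ifs with h
    · rw [h]
      exact P.pricing_serves
    · intro v i _
      exact ⟨rfl, rfl⟩
  optimal v₀ hv₀ N hN hl := by
    rw [P.top_D hv₀] at hl ⊢
    rw [P.event_D hv₀]
    have h1 : P.Lk (univ.erase (Fin.last P.k)) = (P.pricing False).mech := by
      unfold Lk
      rw [if_pos rfl]
    rw [h1]
    have h2 := P.revenue_pricing hk False
    unfold revenue at h2
    rw [h2, if_neg not_false, add_zero, P.D_sum hk fun v => ∑ i, N.pay v i]
    exact div_le_div_of_nonneg_right (P.upper N hN hl) (P.T_pos hk).le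

theorem lookaheadRevenue_eq (hk : 0 < P.k) :
    lookaheadRevenue P.k (P.D hk) P.Lk = P.Z / P.T := by
  have h1 : P.Lk (univ.erase (Fin.last P.k)) = (P.pricing False).mech := by
    unfold Lk
    rw [if_pos rfl]
  have h2 := P.revenue_pricing hk False
  rw [if_neg not_false, add_zero] at h2
  rw [← h2]
  unfold lookaheadRevenue revenue
  refine Finset.sum_congr rfl fun v hv => ?_
  rw [P.top_D hv, h1]

/-- The total weight of the profiles in which no bidder with a high value can be served. -/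
noncomputable def WN : ℝ := ∑ j : Fin P.k, ∑ b ∈ box P.k P.L, ∑ s ∈ range P.m, P.wN j s b

theorem WN_nonneg : 0 ≤ P.WN :=
  Finset.sum_nonneg fun j _ => Finset.sum_nonneg fun b _ => Finset.sum_nonneg fun _ hs =>
    P.wN_nonneg j (Finset.mem_range.1 hs) b

theorem OPT_ge (hk : 0 < P.k) : ENNReal.ofReal ((P.Z + P.WN) / P.T) ≤ OPT (P.D hk) := by
  have h2 := P.revenue_pricing hk True
  rw [if_pos trivial] at h2
  unfold WN
  rw [← h2]
  unfold OPT
  exact le_iSup₂_of_le (P.pricing True).mech (P.pricing_valid True) le_rfl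

theorem Z_pos (hk : 0 < P.k) : 0 < P.Z := by
  rw [P.Z_eq]
  have h1 : 0 < (P.L : ℝ) := by exact_mod_cast P.hL
  have h2 : 0 < (P.k : ℝ) := by exact_mod_cast hk
  positivity

theorem ratio_le (hk : 0 < P.k) : ratio P.k ≤ ENNReal.ofReal (P.Z / (P.Z + P.WN)) := by
  have hT := P.T_pos hk
  have hZ := P.Z_pos hk
  have hN := P.WN_nonneg
  have h0 : 0 < (P.Z + P.WN) / P.T := by positivity
  have hpos : 0 < OPT (P.D hk) := lt_of_lt_of_le (ENNReal.ofReal_pos.2 h0) (P.OPT_ge hk)
  have h1 : ratio P.k ≤ ENNReal.ofReal (lookaheadRevenue P.k (P.D hk) P.Lk) / OPT (P.D hk) := by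
    unfold ratio
    refine iInf_le_of_le (P.k + 1) (iInf_le_of_le (P.D hk) (iInf_le_of_le P.Lk ?_))
    exact iInf_le_of_le (P.isLookahead hk) (iInf_le_of_le hpos le_rfl)
  refine h1.trans ?_
  rw [P.lookaheadRevenue_eq hk]
  refine (ENNReal.div_le_div_left (P.OPT_ge hk) _).trans ?_
  rw [← ENNReal.ofReal_div_of_pos h0]
  refine ENNReal.ofReal_le_ofReal (le_of_eq ?_)
  field_simp

/-! ### Counting -/

theorem sum_window (l : ℕ) (G : ℕ → ℝ) (c : ℕ) :
    ∑ a ∈ range (P.M * l), G ((c + a) % P.M) = l * ∑ ρ ∈ range P.M, G ρ := by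
  induction l with
  | zero => simp
  | succ l ih =>
    rw [Nat.mul_succ, Finset.range_eq_Ico, ← Finset.sum_Ico_consecutive _ (Nat.zero_le _)
      (Nat.le_add_right (P.M * l) P.M), ← Finset.range_eq_Ico, ih, window_sum]
    push_cast
    ring

/-- The average weight. -/
noncomputable def Y : ℝ := ∑ s ∈ range P.m, (P.y s - P.y (s + 1)) * P.κ (s + 1)

theorem Y_nonneg : 0 ≤ P.Y :=
  Finset.sum_nonneg fun s hs => mul_nonneg
    (sub_nonneg.2 (P.hy' s (Finset.mem_range.1 hs)).le) (Nat.cast_nonneg _)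

theorem inn_one (j i : Fin P.k) {b : Fin P.k → ℕ} (hb : b ∈ box P.k (P.M * P.l)) {a : ℕ}
    (ha : a < P.M * P.l) : P.inn j (Function.update b i a) = 1 := by
  unfold inn
  rw [if_pos]
  intro i' _
  by_cases h : i' = i
  · subst h
    rw [Function.update_self]
    exact ha
  · rw [Function.update_of_ne h]
    exact mem_box.1 hb i'

theorem WN_ge (hk : 2 ≤ P.k) :
    P.k * ((P.M * P.l : ℝ) ^ P.k * (P.l * P.Y) / P.L) ≤ P.WN := by
  have hL : 0 < (P.L : ℝ) := by exact_mod_cast P.hL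
  have hj : ∀ j : Fin P.k, (P.M * P.l : ℝ) ^ P.k * (P.l * P.Y) / P.L ≤
      ∑ b ∈ box P.k P.L, ∑ s ∈ range P.m, P.wN j s b := by
    intro j
    obtain ⟨i, hij⟩ : ∃ i : Fin P.k, i ≠ j := by
      have : Nontrivial (Fin P.k) := Fin.nontrivial_iff_two_le.2 hk
      exact exists_ne j
    rw [div_le_iff₀ hL, mul_comm _ (P.L : ℝ), ← box_average i]
    have hsub : box P.k (P.M * P.l) ⊆ box P.k P.L := by
      intro b hb
      rw [mem_box] at hb ⊢
      intro i'
      have := hb i'
      unfold L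
      omega
    have hnn : ∀ b ∈ box P.k P.L, b ∉ box P.k (P.M * P.l) →
        0 ≤ ∑ a ∈ range P.L, ∑ s ∈ range P.m, P.wN j s (Function.update b i a) := fun b _ _ =>
      Finset.sum_nonneg fun a _ => Finset.sum_nonneg fun s hs =>
        P.wN_nonneg j (Finset.mem_range.1 hs) _
    refine le_trans ?_ (Finset.sum_le_sum_of_subset_of_nonneg hsub hnn)
    have hone : ∀ b ∈ box P.k (P.M * P.l), (P.l * P.Y : ℝ) ≤
        ∑ a ∈ range P.L, ∑ s ∈ range P.m, P.wN j s (Function.update b i a) := by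
      intro b hb
      have hsub' : range (P.M * P.l) ⊆ range P.L := by
        intro a ha
        rw [Finset.mem_range] at ha ⊢
        unfold L
        omega
      refine le_trans (le_of_eq ?_) (Finset.sum_le_sum_of_subset_of_nonneg hsub' fun a _ _ =>
        Finset.sum_nonneg fun s hs => P.wN_nonneg j (Finset.mem_range.1 hs) _)
      rw [Finset.sum_comm]
      unfold Y
      rw [Finset.mul_sum]
      refine Finset.sum_congr rfl fun s _ => ?_
      have h1 : ∀ a ∈ range (P.M * P.l), P.wN j s (Function.update b i a) =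
          (P.y s - P.y (s + 1)) *
            P.e (((∑ i' ∈ (univ.erase j).erase i, b i') + a) % P.M) (s + 1) := by
        intro a ha
        unfold wN res
        rw [P.inn_one j i hb (Finset.mem_range.1 ha), P.csum_update j i hij, mul_one]
      rw [Finset.sum_congr rfl h1, ← Finset.mul_sum,
        P.sum_window P.l (fun ρ => P.e ρ (s + 1)), P.sum_e]
      ring
    have h2 := Finset.sum_le_sum hone
    rw [Finset.sum_const, card_box, nsmul_eq_mul] at h2
    push_cast at h2
    exact h2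
  have h3 := Finset.sum_le_sum fun (j : Fin P.k) (_ : j ∈ univ) => hj j
  rw [Finset.sum_const, Finset.card_univ, Fintype.card_fin, nsmul_eq_mul] at h3
  exact h3

/-- The bound on the ratio in terms of the parameters. -/
theorem ratio_le' (hk : 2 ≤ P.k) : ratio P.k ≤
    ENNReal.ofReal (1 / (1 + ((P.l : ℝ) / (P.l + 1)) ^ (P.k + 1) * (P.Y / P.M))) := by
  refine (P.ratio_le (by omega)).trans (ENNReal.ofReal_le_ofReal ?_)
  have hZ := P.Z_pos (by omega)
  have hN := P.WN_nonneg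
  have hge := P.WN_ge hk
  have hM : 0 < (P.M : ℝ) := by exact_mod_cast P.hM
  have hk0 : 0 < (P.k : ℝ) := by
    have : 0 < P.k := by omega
    exact_mod_cast this
  have hLe : (P.L : ℝ) = P.M * (P.l + 1) := by
    unfold L
    push_cast
    ring
  have hl1 : (0 : ℝ) < P.l + 1 := by positivity
  have key : ((P.l : ℝ) / (P.l + 1)) ^ (P.k + 1) * (P.Y / P.M) * P.Z =
      P.k * ((P.M * P.l : ℝ) ^ P.k * (P.l * P.Y) / P.L) := by
    rw [P.Z_eq, hLe, div_pow, mul_pow, mul_pow, pow_succ, pow_succ]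
    field_simp
  have hY : 0 ≤ ((P.l : ℝ) / (P.l + 1)) ^ (P.k + 1) * (P.Y / P.M) := by
    have := P.Y_nonneg
    positivity
  rw [div_le_div_iff₀ (by positivity) (by positivity)]
  nlinarith

end Par

end Pool.Agent.TH767.LA
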