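import Mathlib

/-!
# Single-item auctions with correlated bidders and the `k`-lookahead mechanism

Definitions: direct mechanisms which are truthful in expectation and individually rational, finitely
supported joint distributions of the values, the optimal revenue, the `k`-lookahead mechanism and
its approximation ratio.
-/

set_option autoImplicit false

namespace Pool.Agent.TH767.LA

open Finset
open scoped ENNReal

/-- A direct mechanism for one item and `n` bidders: for each vector of bids the probabilities with
which the bidders receive the item, and their expected payments. -/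
structure Mechanism (n : ℕ) where
  /-- probability that bidder `i` receives the item -/
  alloc : (Fin n → ℝ) → Fin n → ℝ
  /-- expected payment of bidder `i` -/
  pay : (Fin n → ℝ) → Fin n → ℝ

/-- The mechanism is feasible, individually rational and truthful in expectation (for all vectors of
positive values). -/
structure Mechanism.Valid {n : ℕ} (M : Mechanism n) : Prop where
  nonneg : ∀ v : Fin n → ℝ, (∀ i, 0 < v i) → ∀ i, 0 ≤ M.alloc v i
  feasible : ∀ v : Fin n → ℝ, (∀ i, 0 < v i) → ∑ i, M.alloc v i ≤ 1
  rational : ∀ v : Fin n → ℝ, (∀ i, 0 < v i) → ∀ i, 0 ≤ v i * M.alloc v i - M.pay v i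
  truthful : ∀ v : Fin n → ℝ, (∀ i, 0 < v i) → ∀ i, ∀ t : ℝ, 0 < t →
    v i * M.alloc (Function.update v i t) i - M.pay (Function.update v i t) i ≤
      v i * M.alloc v i - M.pay v i

/-- Bidders outside of `K` receive nothing and pay nothing. -/
def Mechanism.ServesOnly {n : ℕ} (M : Mechanism n) (K : Finset (Fin n)) : Prop :=
  ∀ (v : Fin n → ℝ) (i : Fin n), i ∉ K → M.alloc v i = 0 ∧ M.pay v i = 0

/-- A finitely supported probability distribution on the vectors of `n` positive values. -/
structure Distribution (n : ℕ) where
  /-- the support -/
  supp : Finset (Fin n → ℝ)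
  /-- the probabilities -/
  prob : (Fin n → ℝ) → ℝ
  prob_pos : ∀ v ∈ supp, 0 < prob v
  prob_sum : ∑ v ∈ supp, prob v = 1
  val_pos : ∀ v ∈ supp, ∀ i, 0 < v i

/-- The expected revenue of a mechanism. -/
noncomputable def revenue {n : ℕ} (D : Distribution n) (M : Mechanism n) : ℝ :=
  ∑ v ∈ D.supp, D.prob v * ∑ i, M.pay v i

/-- The largest expected revenue of a mechanism which is truthful in expectation and individually
rational. -/
noncomputable def OPT {n : ℕ} (D : Distribution n) : ℝ≥0∞ :=
  ⨆ (M : Mechanism n) (_ : M.Valid), ENNReal.ofReal (revenue D M)

/-- The set of the `k` highest bidders, ties broken by index: the bidders that are beaten by less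
than `k` others. -/
noncomputable def top {n : ℕ} (k : ℕ) (v : Fin n → ℝ) : Finset (Fin n) :=
  univ.filter fun i => (univ.filter fun j => v i < v j ∨ (v j = v i ∧ j < i)).card < k

/-- The vectors of the support which agree with `v₀` outside of `K` and in which the value of every
bidder in `K` is at least the value of every bidder outside of `K`: the event on which the
distribution is conditioned. -/
noncomputable def event {n : ℕ} (D : Distribution n) (K : Finset (Fin n)) (v₀ : Fin n → ℝ) :
    Finset (Fin n → ℝ) := by
  classical
  exact D.supp.filter fun v => (∀ j, j ∉ K → v j = v₀ j) ∧ ∀ i ∈ K, ∀ j, j ∉ K → v j ≤ v i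

/-- `L` is an implementation of the `k`-lookahead mechanism for `D`. For every set `K` of bidders
`L K` is a truthful and rational mechanism which serves only the bidders in `K` (it may use the bids
of the others), and if `K` is the set of the `k` highest bidders in `v₀` then it is revenue
maximising for the conditional distribution of the values of `K`, given the values of the others in
`v₀` and given that the values of the bidders in `K` are at least the values of the others. -/
structure IsLookahead {n : ℕ} (k : ℕ) (D : Distribution n) (L : Finset (Fin n) → Mechanism n) :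
    Prop where
  valid : ∀ K, (L K).Valid
  outside : ∀ K, (L K).ServesOnly K
  optimal : ∀ v₀ ∈ D.supp, ∀ M : Mechanism n, M.Valid → M.ServesOnly (top k v₀) →
    ∑ v ∈ event D (top k v₀) v₀, D.prob v * ∑ i, M.pay v i ≤
      ∑ v ∈ event D (top k v₀) v₀, D.prob v * ∑ i, (L (top k v₀)).pay v i

/-- The expected revenue of the `k`-lookahead mechanism `L`: the bids `v` are handed over to the
mechanism for the set of the `k` highest bidders. -/
noncomputable def lookaheadRevenue {n : ℕ} (k : ℕ) (D : Distribution n)
    (L : Finset (Fin n) → Mechanism n) : ℝ :=
  ∑ v ∈ D.supp, D.prob v * ∑ i, (L (top k v)).pay v i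

/-- The approximation ratio `ρ_k` of the `k`-lookahead mechanism: the infimum of the revenue of the
mechanism divided by the optimal revenue, over all numbers of bidders and all distributions with
positive optimal revenue. -/
noncomputable def ratio (k : ℕ) : ℝ≥0∞ :=
  ⨅ (n : ℕ) (D : Distribution n) (L : Finset (Fin n) → Mechanism n) (_ : IsLookahead k D L)
    (_ : 0 < OPT D), ENNReal.ofReal (lookaheadRevenue k D L) / OPT D

/-- The optimal revenue is at most the expected sum of the values, so it is finite. -/
theorem OPT_lt_top {n : ℕ} (D : Distribution n) : OPT D < ⊤ := by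
  refine lt_of_le_of_lt (b := ENNReal.ofReal (∑ v ∈ D.supp, D.prob v * ∑ i, v i)) ?_
    ENNReal.ofReal_lt_top
  refine iSup_le fun M => iSup_le fun hM => ENNReal.ofReal_le_ofReal ?_
  refine Finset.sum_le_sum fun v hv => mul_le_mul_of_nonneg_left ?_ (D.prob_pos v hv).le
  refine Finset.sum_le_sum fun i _ => ?_
  have h1 := hM.rational v (D.val_pos v hv) i
  have h2 : M.alloc v i ≤ 1 :=
    (Finset.single_le_sum (fun j _ => hM.nonneg v (D.val_pos v hv) j)
      (Finset.mem_univ i)).trans (hM.feasible v (D.val_pos v hv))
  have h3 := mul_le_mul_of_nonneg_left h2 (D.val_pos v hv i).le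
  linarith

end Pool.Agent.TH767.LA
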