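import Pool.Agent.TH767.LA.Bound

/-!
The choice of the parameters and the limit.
-/

set_option autoImplicit false

namespace Pool.Agent.TH767.LA

open Finset Filter Topology
open scoped ENNReal

/-- `1 - 1 / p`. -/
noncomputable def qq (p : ℕ) : ℝ := 1 - 1 / p

/-- The numbers of residues. -/
def kap (p s : ℕ) : ℕ := if s ≤ p then (p - 1) ^ s * p ^ (p - s) else 0

/-- The inverse values. -/
noncomputable def yy (p : ℕ) (ε δ : ℝ) (s : ℕ) : ℝ :=
  if s < p then (1 - qq p ^ (p - s)) / (1 + ε) else if s = p then δ else 0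

section

variable {p : ℕ} (hp : 2 ≤ p)
include hp

theorem qq_pos : 0 < qq p := by
  unfold qq
  have h1 : (2 : ℝ) ≤ p := by exact_mod_cast hp
  rw [sub_pos, div_lt_one (by linarith)]
  linarith

theorem qq_lt : qq p < 1 := by
  unfold qq
  have h1 : (2 : ℝ) ≤ p := by exact_mod_cast hp
  have : 0 < 1 / (p : ℝ) := by positivity
  linarith

theorem p_mul_qq : (p : ℝ) * qq p = p - 1 := by
  unfold qq
  have h1 : (2 : ℝ) ≤ p := by exact_mod_cast hp
  field_simp

theorem kap_real {s : ℕ} (hs : s ≤ p) : (kap p s : ℝ) = (p : ℝ) ^ p * qq p ^ s := by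
  unfold kap
  rw [if_pos hs]
  have h1 : ((p - 1 : ℕ) : ℝ) = p * qq p := by
    rw [p_mul_qq hp, Nat.cast_sub (by omega), Nat.cast_one]
  push_cast
  rw [h1, mul_pow]
  have h2 : (p : ℝ) ^ p = (p : ℝ) ^ s * (p : ℝ) ^ (p - s) := by
    rw [← pow_add]
    congr 1
    omega
  rw [h2]
  ring

theorem kap_anti (s : ℕ) : kap p (s + 1) ≤ kap p s := by
  by_cases h : s + 1 ≤ p
  · have h1 : (kap p (s + 1) : ℝ) ≤ kap p s := by
      rw [kap_real hp h, kap_real hp (by omega), pow_succ (qq p) s]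
      have h2 := qq_pos hp
      have h3 := qq_lt hp
      have h4 : 0 ≤ (p : ℝ) ^ p := by positivity
      refine mul_le_mul_of_nonneg_left ?_ h4
      exact mul_le_of_le_one_right (by positivity) h3.le
    exact_mod_cast h1
  · unfold kap
    rw [if_neg h]
    exact Nat.zero_le _

variable {ε δ : ℝ} (hε : 0 < ε) (hδ : 0 < δ) (hδ1 : δ * (1 + ε) < 1 / p)
include hε hδ

theorem yy_pos {s : ℕ} (hs : s < p + 1) : 0 < yy p ε δ s := by
  unfold yy
  by_cases h : s < p
  · rw [if_pos h]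
    refine div_pos (sub_pos.2 (pow_lt_one₀ (qq_pos hp).le (qq_lt hp) (by omega))) (by linarith)
  · rw [if_neg h, if_pos (by omega)]
    exact hδ

include hδ1

theorem yy_lt {s : ℕ} (hs : s < p + 1) : yy p ε δ (s + 1) < yy p ε δ s := by
  have h0 : 0 < 1 + ε := by linarith
  have hq := qq_pos hp
  have hq1 := qq_lt hp
  unfold yy
  by_cases h : s + 1 < p
  · rw [if_pos h, if_pos (by omega)]
    refine div_lt_div_of_pos_right ?_ h0
    have h1 : qq p ^ (p - s) < qq p ^ (p - (s + 1)) :=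
      pow_lt_pow_right_of_lt_one₀ hq hq1 (by omega)
    linarith
  · by_cases h2 : s + 1 = p
    · rw [if_neg h, if_pos h2, if_pos (by omega), lt_div_iff₀ h0]
      have h3 : p - s = 1 := by omega
      rw [h3, pow_one]
      unfold qq
      linarith
    · have h3 : s = p := by omega
      rw [if_neg h, if_neg h2, if_neg (by omega), if_pos h3]
      exact hδ

theorem yy_B {s : ℕ} (hs : s < p + 1) :
    (1 + ε) * (yy p ε δ s - yy p ε δ (s + 1)) * (kap p (s + 1) : ℝ) ≤
      ((kap p s : ℝ) - kap p (s + 1)) * (1 - (1 + ε) * yy p ε δ s) := by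
  have h0 : 0 < 1 + ε := by linarith
  have hq := qq_pos hp
  have hq1 := qq_lt hp
  have hp0 : (0 : ℝ) < p := by
    have : 0 < p := by omega
    exact_mod_cast this
  by_cases h : s = p
  · subst h
    have h1 : kap s (s + 1) = 0 := by
      unfold kap
      rw [if_neg (by omega)]
    have h2 : yy s ε δ s = δ := by
      unfold yy
      rw [if_neg (lt_irrefl s), if_pos rfl]
    rw [h1, h2, Nat.cast_zero, mul_zero]
    refine mul_nonneg (by rw [sub_zero]; exact Nat.cast_nonneg _) ?_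
    have h3 : (1 : ℝ) / s ≤ 1 := by
      rw [div_le_one hp0]
      have : 1 ≤ s := by omega
      exact_mod_cast this
    nlinarith
  · have hs' : s < p := by omega
    rw [kap_real hp (by omega : s + 1 ≤ p), kap_real hp hs'.le]
    have h1 : yy p ε δ s = (1 - qq p ^ (p - s)) / (1 + ε) := by
      unfold yy
      rw [if_pos hs']
    have h2 : (1 - qq p ^ (p - (s + 1))) ≤ (1 + ε) * yy p ε δ (s + 1) := by
      unfold yy
      by_cases h3 : s + 1 < p
      · rw [if_pos h3, mul_div_cancel₀ _ h0.ne']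
      · have h4 : s + 1 = p := by omega
        rw [if_neg h3, if_pos h4, h4, Nat.sub_self, pow_zero, sub_self]
        positivity
    have h3 : (1 + ε) * yy p ε δ s = 1 - qq p ^ (p - s) := by
      rw [h1, mul_div_cancel₀ _ h0.ne']
    have h4 : qq p ^ (p - s) = qq p ^ (p - (s + 1)) * qq p := by
      rw [← pow_succ]
      congr 1
      omega
    have h5 : qq p ^ p = qq p ^ (p - (s + 1)) * qq p ^ (s + 1) := by
      rw [← pow_add]
      congr 1
      omega
    have h6 : (0 : ℝ) < (p : ℝ) ^ p * qq p ^ (s + 1) := by positivity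
    calc (1 + ε) * (yy p ε δ s - yy p ε δ (s + 1)) * ((p : ℝ) ^ p * qq p ^ (s + 1))
        = ((1 + ε) * yy p ε δ s - (1 + ε) * yy p ε δ (s + 1)) *
          ((p : ℝ) ^ p * qq p ^ (s + 1)) := by ring
      _ ≤ ((1 - qq p ^ (p - s)) - (1 - qq p ^ (p - (s + 1)))) *
          ((p : ℝ) ^ p * qq p ^ (s + 1)) := by
          refine mul_le_mul_of_nonneg_right ?_ h6.le
          rw [h3]
          linarith
      _ = ((p : ℝ) ^ p * qq p ^ s - (p : ℝ) ^ p * qq p ^ (s + 1)) *
          (1 - (1 + ε) * yy p ε δ s) := by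
          rw [h3, h4, pow_succ]
          ring

/-- The parameters. -/
noncomputable def par (k l : ℕ) : Par where
  k := k
  m := p + 1
  M := p ^ p
  l := l
  κ := kap p
  y := yy p ε δ
  ε := ε
  hM := Nat.pow_pos (by omega)
  hκ0 := by simp [kap]
  hκm := by
    unfold kap
    rw [if_neg (by omega)]
  hκ := kap_anti hp
  hy := fun _ hs => yy_pos hp hε hδ hs
  hym := by
    unfold yy
    rw [if_neg (by omega), if_neg (by omega)]
  hy' := fun _ hs => yy_lt hp hε hδ hδ1 hs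
  hε := hε
  hyε := by
    have h0 : 0 < 1 + ε := by linarith
    unfold yy
    rw [if_pos (by omega), mul_div_cancel₀ _ h0.ne']
    have := pow_pos (qq_pos hp) (p - 0)
    linarith
  hB := fun _ hs => yy_B hp hε hδ hδ1 hs

theorem par_Y (k l : ℕ) :
    (par hp hε hδ hδ1 k l).Y / (par hp hε hδ hδ1 k l).M = qq p ^ p * (1 / (1 + ε) - δ) := by
  have h0 : 0 < 1 + ε := by linarith
  have hp0 : (0 : ℝ) < p := by
    have : 0 < p := by omega
    exact_mod_cast this
  have e1 : (par hp hε hδ hδ1 k l).Y =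
      ∑ s ∈ range (p + 1), (yy p ε δ s - yy p ε δ (s + 1)) * kap p (s + 1) := rfl
  have e2 : ((par hp hε hδ hδ1 k l).M : ℝ) = (p : ℝ) ^ p := by
    show ((p ^ p : ℕ) : ℝ) = _
    push_cast
    rfl
  obtain ⟨p', rfl⟩ : ∃ p', p = p' + 1 := ⟨p - 1, by omega⟩
  rw [e1, e2, Finset.sum_range_succ, Finset.sum_range_succ]
  have h1 : kap (p' + 1) (p' + 1 + 1) = 0 := by
    unfold kap
    rw [if_neg (by omega)]
  have h2 : ∀ s ∈ range p', (yy (p' + 1) ε δ s - yy (p' + 1) ε δ (s + 1)) *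
      (kap (p' + 1) (s + 1) : ℝ) =
        ((p' + 1 : ℕ) : ℝ) ^ (p' + 1) * qq (p' + 1) ^ (p' + 1) *
          ((1 - qq (p' + 1)) / (1 + ε)) := by
    intro s hs
    rw [Finset.mem_range] at hs
    rw [kap_real hp (by omega)]
    unfold yy
    rw [if_pos (by omega), if_pos (by omega)]
    have h4 : qq (p' + 1) ^ (p' + 1 - s) = qq (p' + 1) ^ (p' + 1 - (s + 1)) * qq (p' + 1) := by
      rw [← pow_succ]
      congr 1
      omega
    have h5 : qq (p' + 1) ^ (p' + 1) =
        qq (p' + 1) ^ (p' + 1 - (s + 1)) * qq (p' + 1) ^ (s + 1) := by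
      rw [← pow_add]
      congr 1
      omega
    rw [h4, h5]
    field_simp
    ring
  rw [Finset.sum_congr rfl h2, h1, Finset.sum_const, Finset.card_range, nsmul_eq_mul,
    kap_real hp le_rfl]
  have h6 : yy (p' + 1) ε δ p' = (1 - qq (p' + 1)) / (1 + ε) := by
    unfold yy
    rw [if_pos (by omega)]
    have : p' + 1 - p' = 1 := by omega
    rw [this, pow_one]
  have h7 : yy (p' + 1) ε δ (p' + 1) = δ := by
    unfold yy
    rw [if_neg (lt_irrefl _), if_pos rfl]
  rw [h6, h7]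
  have h8 : (p' : ℝ) * (1 - qq (p' + 1)) + (1 - qq (p' + 1)) = 1 := by
    unfold qq
    push_cast
    field_simp
    ring
  have h9 : ((p' + 1 : ℕ) : ℝ) ^ (p' + 1) ≠ 0 := by positivity
  rw [div_eq_iff h9, Nat.cast_zero, mul_zero, add_zero]
  have h10 : (p' : ℝ) * ((1 - qq (p' + 1)) / (1 + ε)) + (1 - qq (p' + 1)) / (1 + ε) =
      1 / (1 + ε) := by
    calc (p' : ℝ) * ((1 - qq (p' + 1)) / (1 + ε)) + (1 - qq (p' + 1)) / (1 + ε)
        = ((p' : ℝ) * (1 - qq (p' + 1)) + (1 - qq (p' + 1))) / (1 + ε) := by ring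
      _ = 1 / (1 + ε) := by rw [h8]
  linear_combination ((p' + 1 : ℕ) : ℝ) ^ (p' + 1) * qq (p' + 1) ^ (p' + 1) * h10

end

theorem ratio_le_p {k : ℕ} (hk : 2 ≤ k) {p : ℕ} (hp : 2 ≤ p) :
    ratio k ≤ ENNReal.ofReal (1 / (1 + qq p ^ p)) := by
  have hp0 : (0 : ℝ) < p := by
    have : 0 < p := by omega
    exact_mod_cast this
  have hev : ∀ᶠ l : ℕ in atTop, ratio k ≤ ENNReal.ofReal (1 / (1 + ((l : ℝ) / (l + 1)) ^ (k + 1) *
      (qq p ^ p * (1 / (1 + 1 / ((l : ℝ) + 1)) - 1 / ((l : ℝ) + 1))))) := by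
    filter_upwards [eventually_ge_atTop (2 * p)] with l hl
    have hl1 : (0 : ℝ) < 1 / ((l : ℝ) + 1) := by positivity
    have hl2 : (2 * p : ℝ) ≤ l := by exact_mod_cast hl
    have hδ1 : 1 / ((l : ℝ) + 1) * (1 + 1 / ((l : ℝ) + 1)) < 1 / p := by
      have h1 : 1 / ((l : ℝ) + 1) < 1 / (2 * p) :=
        one_div_lt_one_div_of_lt (by positivity) (by linarith)
      have h2 : 1 / ((l : ℝ) + 1) ≤ 1 := by
        rw [div_le_one (by positivity)]
        have : (0 : ℝ) ≤ l := Nat.cast_nonneg l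
        linarith
      calc 1 / ((l : ℝ) + 1) * (1 + 1 / ((l : ℝ) + 1)) ≤ 1 / ((l : ℝ) + 1) * 2 :=
            mul_le_mul_of_nonneg_left (by linarith) hl1.le
        _ < 1 / (2 * p) * 2 := by linarith
        _ = 1 / p := by field_simp
    have h := (par hp hl1 hl1 hδ1 k l).ratio_le' hk
    rw [par_Y] at h
    exact h
  have hlim : Tendsto (fun l : ℕ => 1 / (1 + ((l : ℝ) / (l + 1)) ^ (k + 1) *
      (qq p ^ p * (1 / (1 + 1 / ((l : ℝ) + 1)) - 1 / ((l : ℝ) + 1))))) atTop
      (𝓝 (1 / (1 + 1 ^ (k + 1) * (qq p ^ p * (1 / (1 + 0) - 0))))) := by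
    have h1 : Tendsto (fun l : ℕ => 1 / ((l : ℝ) + 1)) atTop (𝓝 0) :=
      tendsto_one_div_add_atTop_nhds_zero_nat
    have h2 : Tendsto (fun l : ℕ => (l : ℝ) / (l + 1)) atTop (𝓝 1) :=
      tendsto_natCast_div_add_atTop 1
    have hq : 0 < qq p ^ p := pow_pos (qq_pos hp) p
    refine Tendsto.div tendsto_const_nhds (Tendsto.add tendsto_const_nhds
      ((h2.pow (k + 1)).mul (Tendsto.mul tendsto_const_nhds
        ((Tendsto.div tendsto_const_nhds (tendsto_const_nhds.add h1) (by norm_num)).sub h1)))) ?_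
    norm_num
    positivity
  have h3 := ENNReal.tendsto_ofReal hlim
  have h4 := ge_of_tendsto h3 hev
  simpa using h4

theorem ratio_le_exp {k : ℕ} (hk : 2 ≤ k) :
    ratio k ≤ ENNReal.ofReal (Real.exp 1 / (1 + Real.exp 1)) := by
  have hev : ∀ᶠ p : ℕ in atTop, ratio k ≤
      ENNReal.ofReal (1 / (1 + (1 + (-1 : ℝ) / (p : ℝ)) ^ p)) := by
    filter_upwards [eventually_ge_atTop 2] with p hp
    have h := ratio_le_p hk hp
    unfold qq at h
    have e : (1 - 1 / (p : ℝ)) = 1 + (-1 : ℝ) / p := by ring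
    rw [e] at h
    exact h
  have hlim : Tendsto (fun p : ℕ => 1 / (1 + (1 + (-1 : ℝ) / (p : ℝ)) ^ p)) atTop
      (𝓝 (1 / (1 + Real.exp (-1)))) := by
    have hpos : (1 : ℝ) + Real.exp (-1) ≠ 0 := by positivity
    exact Tendsto.div tendsto_const_nhds
      (tendsto_const_nhds.add (Real.tendsto_one_add_div_pow_exp (-1))) hpos
  have h4 := ge_of_tendsto (ENNReal.tendsto_ofReal hlim) hev
  have e : 1 / (1 + Real.exp (-1)) = Real.exp 1 / (1 + Real.exp 1) := by
    rw [Real.exp_neg]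
    have := Real.exp_pos 1
    field_simp
    ring
  rw [e] at h4
  exact h4

end Pool.Agent.TH767.LA
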