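import Pool.Agent.TH767.LA.Fin

/-!
# The approximation ratio of the `k`-lookahead auction does not tend to `1`

The definitions (mechanisms, distributions, optimal revenue, `k`-lookahead mechanism, the ratio
`ρ_k`) are in `Pool/Agent/TH767/LA/Defs.lean`.

The bad distributions, for given `k ≥ 2`: bidder `k + 1` always has value `1`. One of the first `k`
bidders, chosen at random, is exceptional and has one of finitely many high values
`r_0 < r_1 < ...`; the other `k - 1` bidders have values in a fine grid of `(1, 1 + ε]`. The residue
modulo `p ^ p` of the sum of the positions of these `k - 1` values in the grid determines at which of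
the high values the exceptional bidder buys; at lower high values the item can only be sold to
bidder `k + 1`. A mechanism for the first `k` bidders which wants to sell in these cases, for the
price of about `1`, to one of the bidders with low value has to sell to this bidder for all higher
positions in the grid, too, hence for all residues, and gains nothing (linear programming duality).
With the optimal proportions of the residues the revenue in these cases is `(1 - 1 / p) ^ p` times
the rest in the limit, which tends to `1 / e`.
-/

set_option autoImplicit false

namespace Pool.Agent.TH767.LA.Known

open Filter Topology Pool.Agent.TH767.LA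

/-- For every `k ≥ 2` the approximation ratio `ρ_k` of the `k`-lookahead mechanism is at most
`e / (1 + e)`; so `ρ_k` does not tend to `1`. -/
theorem result :
    (∀ k : ℕ, 2 ≤ k → ratio k ≤ ENNReal.ofReal (Real.exp 1 / (1 + Real.exp 1))) ∧
      ¬ Tendsto ratio atTop (𝓝 1) := by
  refine ⟨fun k hk => ratio_le_exp hk, fun h => ?_⟩
  have h1 : (1 : ENNReal) ≤ ENNReal.ofReal (Real.exp 1 / (1 + Real.exp 1)) :=
    le_of_tendsto h ((eventually_ge_atTop 2).mono fun k hk => ratio_le_exp hk)
  rw [ENNReal.one_le_ofReal, le_div_iff₀ (by positivity)] at h1
  linarith

end Pool.Agent.TH767.LA.Known
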