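import Mathlib

/-!
Two lemmas on sequences: linear programming duality for one bidder with finitely many possible
values, and nonnegativity of tail sums of sequences with nonnegative sums over windows.
-/

set_option autoImplicit false

namespace Pool.Agent.TH767.LA

open Finset

/-- Duality for a single bidder: possible values `t 0 < t 1 < ...`, weights `w`, dual weights `z`,
allocation probabilities `x`, payments `p`. -/
theorem line_duality (m : ℕ) (t w z x p : ℕ → ℝ)
    (ht : ∀ s, s + 1 < m → t s < t (s + 1))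
    (hw : ∀ s, s < m → 0 ≤ w s)
    (hx : ∀ s, s < m → 0 ≤ x s)
    (hir : ∀ s, s < m → p s ≤ t s * x s)
    (hic : ∀ s s', s < m → s' < m → t s * x s' - p s' ≤ t s * x s - p s)
    (hc : ∀ s, s < m → t s * ∑ s' ∈ Ico s m, w s' ≤ ∑ s' ∈ Ico s m, z s') :
    ∑ s ∈ range m, w s * p s ≤ ∑ s ∈ range m, z s * x s := by
  -- the claim for the tails
  have key : ∀ d s, s + d + 1 = m →
      ∑ s' ∈ Ico s m, w s' * (p s' - p s) ≤ ∑ s' ∈ Ico s m, z s' * (x s' - x s) := by
    intro d
    induction d with
    | zero =>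
      intro s hs
      have h1 : Ico s m = {s} := by
        rw [← hs]
        simp
      rw [h1]
      simp
    | succ d ih =>
      intro s hs
      have hs1 : s + 1 < m := by omega
      have hs0 : s < m := by omega
      have h1 := ih (s + 1) (by omega)
      have h2 := hc (s + 1) hs1
      have h3 : p (s + 1) - p s ≤ t (s + 1) * (x (s + 1) - x s) := by
        have := hic (s + 1) s hs1 hs0
        linarith
      have h4 : 0 ≤ x (s + 1) - x s := by
        have h5 := hic (s + 1) s hs1 hs0
        have h6 := hic s (s + 1) hs0 hs1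
        have h7 := ht s hs1
        have h8 : 0 ≤ (t (s + 1) - t s) * (x (s + 1) - x s) := by linarith
        exact nonneg_of_mul_nonneg_right (by linarith) (sub_pos.2 h7)
      have h9 : 0 ≤ ∑ s' ∈ Ico (s + 1) m, w s' :=
        Finset.sum_nonneg fun s' hs' => hw s' (Finset.mem_Ico.1 hs').2
      have e1 : ∑ s' ∈ Ico s m, w s' * (p s' - p s) =
          ∑ s' ∈ Ico (s + 1) m, w s' * (p s' - p (s + 1)) +
            (p (s + 1) - p s) * ∑ s' ∈ Ico (s + 1) m, w s' := by
        rw [Finset.sum_eq_sum_Ico_succ_bot hs0, sub_self, mul_zero, zero_add, Finset.mul_sum,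
          ← Finset.sum_add_distrib]
        refine Finset.sum_congr rfl fun s' _ => by ring
      have e2 : ∑ s' ∈ Ico s m, z s' * (x s' - x s) =
          ∑ s' ∈ Ico (s + 1) m, z s' * (x s' - x (s + 1)) +
            (x (s + 1) - x s) * ∑ s' ∈ Ico (s + 1) m, z s' := by
        rw [Finset.sum_eq_sum_Ico_succ_bot hs0, sub_self, mul_zero, zero_add, Finset.mul_sum,
          ← Finset.sum_add_distrib]
        refine Finset.sum_congr rfl fun s' _ => by ring
      rw [e1, e2]
      have h10 : (p (s + 1) - p s) * ∑ s' ∈ Ico (s + 1) m, w s' ≤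
          t (s + 1) * (x (s + 1) - x s) * ∑ s' ∈ Ico (s + 1) m, w s' :=
        mul_le_mul_of_nonneg_right h3 h9
      have h11 := mul_le_mul_of_nonneg_left h2 h4
      nlinarith
  rcases Nat.eq_zero_or_pos m with h0 | h0
  · rw [h0]
    simp
  have h1 := key (m - 1) 0 (by omega)
  have h2 := hc 0 h0
  have h3 := hir 0 h0
  have h4 := hx 0 h0
  rw [← Finset.range_eq_Ico] at h1 h2
  have h9 : 0 ≤ ∑ s' ∈ range m, w s' :=
    Finset.sum_nonneg fun s' hs' => hw s' (Finset.mem_range.1 hs')
  have e1 : ∑ s' ∈ range m, w s' * p s' =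
      ∑ s' ∈ range m, w s' * (p s' - p 0) + p 0 * ∑ s' ∈ range m, w s' := by
    rw [Finset.mul_sum, ← Finset.sum_add_distrib]
    refine Finset.sum_congr rfl fun s' _ => by ring
  have e2 : ∑ s' ∈ range m, z s' * x s' =
      ∑ s' ∈ range m, z s' * (x s' - x 0) + x 0 * ∑ s' ∈ range m, z s' := by
    rw [Finset.mul_sum, ← Finset.sum_add_distrib]
    refine Finset.sum_congr rfl fun s' _ => by ring
  rw [e1, e2]
  have h5 := mul_le_mul_of_nonneg_right h3 h9
  have h6 := mul_le_mul_of_nonneg_left h2 h4
  nlinarith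

/-- Tail sums of a sequence which dominates a sequence with nonnegative sums over all windows of
length `M` and which is nonnegative on the last `M` places are nonnegative. -/
theorem tail_nonneg (M B : ℕ) (hM : 0 < M) (f g : ℕ → ℝ) (hfg : ∀ x, x < B + M → g x ≤ f x)
    (hf : ∀ x, B ≤ x → x < B + M → 0 ≤ f x)
    (hg : ∀ a, 0 ≤ ∑ x ∈ Ico a (a + M), g x) (a : ℕ) :
    0 ≤ ∑ x ∈ Ico a (B + M), f x := by
  induction' h : B + M - a using Nat.strong_induction_on with n ih generalizing a
  by_cases h1 : B < a
  · refine Finset.sum_nonneg fun x hx => ?_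
    rw [Finset.mem_Ico] at hx
    exact hf x (by omega) hx.2
  · have h2 : a + M ≤ B + M := by omega
    rw [← Finset.sum_Ico_consecutive f (Nat.le_add_right a M) h2]
    have h3 : 0 ≤ ∑ x ∈ Ico a (a + M), f x := by
      refine (hg a).trans (Finset.sum_le_sum fun x hx => hfg x ?_)
      rw [Finset.mem_Ico] at hx
      omega
    have h4 : 0 ≤ ∑ x ∈ Ico (a + M) (B + M), f x :=
      ih (B + M - (a + M)) (by omega) (a + M) rfl
    linarith

/-- The sum of a function of the residue over a window is the sum over all residues. -/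
theorem window_sum (M : ℕ) (G : ℕ → ℝ) (c a : ℕ) :
    ∑ x ∈ Ico a (a + M), G ((c + x) % M) = ∑ ρ ∈ range M, G ρ := by
  have h1 : ∑ x ∈ Ico a (a + M), G ((c + x) % M) = ∑ x ∈ Ico (c + a) (c + a + M), G (x % M) := by
    rw [show c + a + M = (a + M) + c by ring, show c + a = a + c by ring,
      ← Finset.sum_Ico_add' (fun x => G (x % M)) a (a + M) c]
    refine Finset.sum_congr rfl fun x _ => ?_
    rw [add_comm]
  rw [h1, ← Nat.image_Ico_mod (c + a) M, Finset.sum_image]
  exact Nat.mod_injOn_Ico (c + a) M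

end Pool.Agent.TH767.LA
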