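import Pool.Agent.TH767.LA.Upper

/-!
Posted price mechanisms; the two mechanisms for the bad distributions.
-/

set_option autoImplicit false

namespace Pool.Agent.TH767.LA

open Finset

/-- Prices for the bidders which do not depend on their own bids. -/
structure Pricing (n : ℕ) where
  price : Fin n → (Fin n → ℝ) → Option ℝ
  inv : ∀ i v t, price i (Function.update v i t) = price i v

namespace Pricing

variable {n : ℕ} (π : Pricing n)

/-- Bidder `i` buys. -/
def Wins (i : Fin n) (v : Fin n → ℝ) : Prop := ∃ q, π.price i v = some q ∧ q ≤ v i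

open Classical in
/-- The mechanism in which every bidder can buy at her price. -/
noncomputable def mech : Mechanism n where
  alloc v i := if π.Wins i v then 1 else 0
  pay v i := if π.Wins i v then (π.price i v).getD 0 else 0

theorem pay_of_wins {i : Fin n} {v : Fin n → ℝ} {q : ℝ} (h : π.price i v = some q)
    (hq : q ≤ v i) : π.mech.pay v i = q := by
  unfold mech
  simp only
  rw [if_pos ⟨q, h, hq⟩, h, Option.getD_some]

theorem pay_of_not {i : Fin n} {v : Fin n → ℝ} (h : ¬ π.Wins i v) : π.mech.pay v i = 0 := by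
  unfold mech
  simp only
  rw [if_neg h]

theorem alloc_of_not {i : Fin n} {v : Fin n → ℝ} (h : ¬ π.Wins i v) :
    π.mech.alloc v i = 0 := by
  unfold mech
  simp only
  rw [if_neg h]

theorem alloc_of_wins {i : Fin n} {v : Fin n → ℝ} (h : π.Wins i v) :
    π.mech.alloc v i = 1 := by
  unfold mech
  simp only
  rw [if_pos h]

theorem valid (h : ∀ v i j, π.Wins i v → π.Wins j v → i = j) : π.mech.Valid where
  nonneg v _ i := by
    by_cases hw : π.Wins i v
    · rw [π.alloc_of_wins hw]
      norm_num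
    · rw [π.alloc_of_not hw]
  feasible v _ := by
    classical
    have h1 : ∑ i, π.mech.alloc v i = ((univ.filter fun i => π.Wins i v).card : ℝ) := by
      rw [Finset.card_filter]
      push_cast
      refine Finset.sum_congr rfl fun i _ => ?_
      by_cases hw : π.Wins i v
      · rw [π.alloc_of_wins hw, if_pos hw]
      · rw [π.alloc_of_not hw, if_neg hw]
    rw [h1]
    have h2 : (univ.filter fun i => π.Wins i v).card ≤ 1 := by
      rw [Finset.card_le_one]
      intro i hi j hj
      exact h v i j (Finset.mem_filter.1 hi).2 (Finset.mem_filter.1 hj).2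
    exact_mod_cast h2
  rational v _ i := by
    by_cases hw : π.Wins i v
    · obtain ⟨q, hq, hqv⟩ := hw
      rw [π.alloc_of_wins ⟨q, hq, hqv⟩, π.pay_of_wins hq hqv]
      linarith
    · rw [π.alloc_of_not hw, π.pay_of_not hw]
      simp
  truthful v _ i t _ := by
    by_cases hu : π.Wins i (Function.update v i t)
    · obtain ⟨q, hq, hqv⟩ := hu
      rw [π.alloc_of_wins ⟨q, hq, hqv⟩, π.pay_of_wins hq hqv]
      rw [π.inv] at hq
      by_cases hw : q ≤ v i
      · rw [π.alloc_of_wins ⟨q, hq, hw⟩, π.pay_of_wins hq hw]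
      · have hn : ¬ π.Wins i v := by
          rintro ⟨q', hq', hq''⟩
          rw [hq] at hq'
          obtain rfl := Option.some.inj hq'
          exact hw hq''
        rw [π.alloc_of_not hn, π.pay_of_not hn]
        push Not at hw
        linarith
    · rw [π.alloc_of_not hu, π.pay_of_not hu]
      by_cases hw : π.Wins i v
      · obtain ⟨q, hq, hqv⟩ := hw
        rw [π.alloc_of_wins ⟨q, hq, hqv⟩, π.pay_of_wins hq hqv]
        linarith
      · rw [π.alloc_of_not hw, π.pay_of_not hw]

end Pricing

/-- The mechanism which never sells. -/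
def zeroMech (n : ℕ) : Mechanism n where
  alloc _ _ := 0
  pay _ _ := 0

theorem zeroMech_valid (n : ℕ) : (zeroMech n).Valid where
  nonneg _ _ _ := le_refl _
  feasible _ _ := by simp [zeroMech]
  rational _ _ _ := by simp [zeroMech]
  truthful _ _ _ _ _ := by simp [zeroMech]

namespace Par

variable (P : Par)

/-- Level `s` is the threshold of bidder `j` if the others have the values in `v`. -/
def Thr (j : Fin P.k) (v : Fin (P.k + 1) → ℝ) (s : ℕ) : Prop :=
  s < P.m ∧ ∃ b ∈ box P.k P.L, (∀ i, i ≠ j → v i.castSucc = P.β (b i)) ∧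
    P.κ (s + 1) ≤ P.res j b ∧ P.res j b < P.κ s

theorem thr_unique {j : Fin P.k} {v : Fin (P.k + 1) → ℝ} {s s' : ℕ} (h : P.Thr j v s)
    (h' : P.Thr j v s') : s = s' := by
  obtain ⟨_, b, _, hb, h1, h2⟩ := h
  obtain ⟨_, b', _, hb', h1', h2'⟩ := h'
  have h3 : P.res j b = P.res j b' := by
    unfold res csum
    congr 1
    refine Finset.sum_congr rfl fun i hi => ?_
    have hij := Finset.ne_of_mem_erase hi
    exact P.β_inj ((hb i hij).symm.trans (hb' i hij))
  by_contra hne
  rcases Nat.lt_or_gt_of_ne hne with h4 | h4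
  · have := P.κ_anti (show s + 1 ≤ s' by omega)
    omega
  · have := P.κ_anti (show s' + 1 ≤ s by omega)
    omega

theorem thr_congr {j : Fin P.k} {v v' : Fin (P.k + 1) → ℝ}
    (h : ∀ i, i ≠ j → v i.castSucc = v' i.castSucc) : P.Thr j v = P.Thr j v' := by
  funext s
  unfold Thr
  refine propext (and_congr_right fun _ => exists_congr fun b => and_congr_right fun _ =>
    and_congr_left fun _ => ?_)
  exact forall_congr' fun i => forall_congr' fun hi => by rw [h i hi]

open Classical in
/-- The price of bidder `j < k`. -/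
noncomputable def pr (j : Fin P.k) (v : Fin (P.k + 1) → ℝ) : Option ℝ :=
  if h : ∃ s, P.Thr j v s then some (P.r h.choose) else none

theorem pr_congr {j : Fin P.k} {v v' : Fin (P.k + 1) → ℝ}
    (h : ∀ i, i ≠ j → v i.castSucc = v' i.castSucc) : P.pr j v = P.pr j v' := by
  unfold pr
  rw [P.thr_congr h]

theorem pr_eq {j : Fin P.k} {v : Fin (P.k + 1) → ℝ} {s : ℕ} (h : P.Thr j v s) :
    P.pr j v = some (P.r s) := by
  have h1 : ∃ s, P.Thr j v s := ⟨s, h⟩
  unfold pr
  rw [dif_pos h1, P.thr_unique h1.choose_spec h]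

theorem pr_some {j : Fin P.k} {v : Fin (P.k + 1) → ℝ} {q : ℝ} (h : P.pr j v = some q) :
    ∃ s, P.Thr j v s ∧ q = P.r s := by
  unfold pr at h
  split_ifs at h with h1
  exact ⟨h1.choose, h1.choose_spec, (Option.some.inj h).symm⟩

/-- Bidder `j < k` buys. -/
def Buys (j : Fin P.k) (v : Fin (P.k + 1) → ℝ) : Prop :=
  ∃ q, P.pr j v = some q ∧ q ≤ v j.castSucc

theorem buys_congr {j : Fin P.k} {v v' : Fin (P.k + 1) → ℝ}
    (h : ∀ i : Fin P.k, v i.castSucc = v' i.castSucc) : P.Buys j v ↔ P.Buys j v' := by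
  unfold Buys
  rw [P.pr_congr (v := v) (v' := v') fun i _ => h i, h j]

theorem buys_unique {j j' : Fin P.k} {v : Fin (P.k + 1) → ℝ} (h : P.Buys j v)
    (h' : P.Buys j' v) : j = j' := by
  by_contra hne
  obtain ⟨q, hq, hqv⟩ := h
  obtain ⟨q', hq', hqv'⟩ := h'
  obtain ⟨s, ⟨hs, b, hb, hvb, _⟩, rfl⟩ := P.pr_some hq
  obtain ⟨s', ⟨hs', b', hb', hvb', _⟩, rfl⟩ := P.pr_some hq'
  have h1 := hvb' j hne
  have h2 := P.β_lt_r (mem_box.1 hb' j) hs
  linarith

open Classical in
/-- The prices: if `d` then bidder `k` can buy at price `1` when nobody else buys. -/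
noncomputable def pricing (d : Prop) : Pricing (P.k + 1) where
  price := fun i v => Fin.lastCases (motive := fun _ => Option ℝ)
    (if d ∧ ¬ ∃ j, P.Buys j v then some 1 else none) (fun j => P.pr j v) i
  inv := by
    intro i v t
    refine Fin.lastCases ?_ (fun j => ?_) i
    · rw [Fin.lastCases_last, Fin.lastCases_last]
      have h1 : ∀ j, P.Buys j (Function.update v (Fin.last P.k) t) ↔ P.Buys j v := fun j =>
        P.buys_congr fun i => by rw [Function.update_of_ne (Fin.castSucc_lt_last i).ne]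
      simp only [h1]
    · rw [Fin.lastCases_castSucc, Fin.lastCases_castSucc]
      refine P.pr_congr fun i hi => ?_
      rw [Function.update_of_ne fun h' => hi (Fin.castSucc_injective _ h')]

open Classical in
theorem price_last (d : Prop) (v : Fin (P.k + 1) → ℝ) :
    (P.pricing d).price (Fin.last P.k) v =
      if d ∧ ¬ ∃ j, P.Buys j v then some 1 else none := by
  unfold pricing
  simp only
  rw [Fin.lastCases_last]

theorem price_castSucc (d : Prop) (v : Fin (P.k + 1) → ℝ) (j : Fin P.k) :
    (P.pricing d).price j.castSucc v = P.pr j v := by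
  unfold pricing
  simp only
  rw [Fin.lastCases_castSucc]

theorem wins_castSucc (d : Prop) (v : Fin (P.k + 1) → ℝ) (j : Fin P.k) :
    (P.pricing d).Wins j.castSucc v ↔ P.Buys j v := by
  unfold Pricing.Wins Buys
  rw [P.price_castSucc]

theorem wins_last {d : Prop} {v : Fin (P.k + 1) → ℝ} (h : (P.pricing d).Wins (Fin.last P.k) v) :
    d ∧ ¬ ∃ j, P.Buys j v := by
  classical
  obtain ⟨q, hq, _⟩ := h
  rw [P.price_last] at hq
  by_contra hcon
  rw [if_neg hcon] at hq
  exact absurd hq (by simp)

theorem pricing_valid (d : Prop) : (P.pricing d).mech.Valid := by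
  refine Pricing.valid _ fun v i i' => ?_
  refine Fin.lastCases ?_ (fun j => ?_) i
  · refine Fin.lastCases ?_ (fun j' => ?_) i'
    · intro _ _
      rfl
    · intro h h'
      exact absurd ⟨j', (P.wins_castSucc d v j').1 h'⟩ (P.wins_last h).2
  · refine Fin.lastCases ?_ (fun j' => ?_) i'
    · intro h h'
      exact absurd ⟨j, (P.wins_castSucc d v j).1 h⟩ (P.wins_last h').2
    · intro h h'
      rw [P.buys_unique ((P.wins_castSucc d v j).1 h) ((P.wins_castSucc d v j').1 h')]

theorem pricing_serves : (P.pricing False).mech.ServesOnly (univ.erase (Fin.last P.k)) := by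
  intro v i hi
  have h1 : i = Fin.last P.k := by simpa using hi
  subst h1
  have h2 : ¬ (P.pricing False).Wins (Fin.last P.k) v := fun h => (P.wins_last h).1
  exact ⟨Pricing.alloc_of_not _ h2, Pricing.pay_of_not _ h2⟩

/-! ### Payments -/

theorem not_thr_other {i j : Fin P.k} (hij : i ≠ j) {s : ℕ} (hs : s < P.m) (b : Fin P.k → ℕ)
    (s' : ℕ) : ¬ P.Thr i (P.V j s b) s' := by
  rintro ⟨_, b', hb', hv, _⟩
  have h1 := hv j (Ne.symm hij)
  rw [V_self] at h1
  have h2 := P.β_lt_r (mem_box.1 hb' j) hs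
  linarith

theorem not_buys_other {i j : Fin P.k} (hij : i ≠ j) {s : ℕ} (hs : s < P.m) (b : Fin P.k → ℕ) :
    ¬ P.Buys i (P.V j s b) := by
  rintro ⟨q, hq, _⟩
  obtain ⟨s', h1, _⟩ := P.pr_some hq
  exact P.not_thr_other hij hs b s' h1

theorem pay_sum_A (d : Prop) (j : Fin P.k) {s : ℕ} (hs : s < P.m) {b : Fin P.k → ℕ}
    (hb : b ∈ box P.k P.L) (h1 : P.κ (s + 1) ≤ P.res j b) (h2 : P.res j b < P.κ s) :
    ∑ i, (P.pricing d).mech.pay (P.V j s b) i = P.r s := by
  have h3 : P.Thr j (P.V j s b) s :=
    ⟨hs, b, hb, fun i hi => P.V_other hi s b, h1, h2⟩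
  have h4 : P.pr j (P.V j s b) = some (P.r s) := P.pr_eq h3
  have h5 : P.Buys j (P.V j s b) := ⟨P.r s, h4, by rw [V_self]⟩
  rw [Fin.sum_univ_castSucc, Finset.sum_eq_single j]
  · rw [Pricing.pay_of_wins (q := P.r s) _ (by rw [P.price_castSucc, h4]) (by rw [V_self]),
      Pricing.pay_of_not, add_zero]
    intro h
    exact (P.wins_last h).2 ⟨j, h5⟩
  · intro i _ hij
    refine Pricing.pay_of_not _ fun h => ?_
    exact P.not_buys_other hij hs b ((P.wins_castSucc d _ i).1 h)
  · intro h
    exact absurd (Finset.mem_univ j) h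

theorem not_buys_N (j : Fin P.k) {s : ℕ} (hs : s < P.m) {b : Fin P.k → ℕ}
    (h1 : P.res j b < P.κ (s + 1)) (i : Fin P.k) : ¬ P.Buys i (P.V j s b) := by
  by_cases hij : i = j
  · subst hij
    rintro ⟨q, hq, hqv⟩
    obtain ⟨s', ⟨hs', b', hb', hv, h3, h4⟩, rfl⟩ := P.pr_some hq
    rw [V_self] at hqv
    have h5 : P.res i b' = P.res i b := by
      unfold res csum
      congr 1
      refine Finset.sum_congr rfl fun i' hi' => ?_
      have hij := Finset.ne_of_mem_erase hi'
      have h6 := hv i' hij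
      rw [P.V_other hij] at h6
      exact (P.β_inj h6).symm
    have h7 : s' ≤ s := by
      by_contra hcon
      push Not at hcon
      have := P.r_mono hcon hs'
      linarith
    have := P.κ_anti (show s' + 1 ≤ s + 1 by omega)
    omega
  · exact P.not_buys_other hij hs b

open Classical in
theorem pay_sum_N (d : Prop) (j : Fin P.k) {s : ℕ} (hs : s < P.m) {b : Fin P.k → ℕ}
    (h1 : P.res j b < P.κ (s + 1)) :
    ∑ i, (P.pricing d).mech.pay (P.V j s b) i = if d then 1 else 0 := by
  have h2 : ¬ ∃ i, P.Buys i (P.V j s b) := fun ⟨i, hi⟩ => P.not_buys_N j hs h1 i hi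
  rw [Fin.sum_univ_castSucc, Finset.sum_eq_zero, zero_add]
  · split_ifs with hd
    · refine Pricing.pay_of_wins _ ?_ (by rw [V_last])
      rw [P.price_last, if_pos ⟨hd, h2⟩]
    · exact Pricing.pay_of_not _ fun h => hd (P.wins_last h).1
  · intro i _
    refine Pricing.pay_of_not _ fun h => ?_
    exact h2 ⟨i, (P.wins_castSucc d _ i).1 h⟩

open Classical in
theorem weighted_pay (d : Prop) (j : Fin P.k) {s : ℕ} (hs : s < P.m) {b : Fin P.k → ℕ}
    (hb : b ∈ box P.k P.L) :
    P.wt j s b * ∑ i, (P.pricing d).mech.pay (P.V j s b) i =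
      P.z j s b + (if d then P.wN j s b else 0) := by
  have hanti := P.hκ s
  by_cases h1 : P.res j b < P.κ (s + 1)
  · rw [P.pay_sum_N d j hs h1]
    have e1 : P.e (P.res j b) (s + 1) = 1 := if_pos h1
    have e2 : P.e (P.res j b) s = 1 := if_pos (by omega)
    unfold wt wA z
    rw [e1, e2]
    split_ifs <;> ring
  · have e1 : P.e (P.res j b) (s + 1) = 0 := if_neg h1
    by_cases h2 : P.res j b < P.κ s
    · rw [P.pay_sum_A d j hs hb (by omega) h2]
      have e2 : P.e (P.res j b) s = 1 := if_pos h2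
      unfold wt wA wN z
      rw [e1, e2]
      have := P.r_mul hs
      split_ifs <;> linarith
    · have e2 : P.e (P.res j b) s = 0 := if_neg h2
      unfold wt wA wN z
      rw [e1, e2]
      split_ifs <;> ring

end Par

end Pool.Agent.TH767.LA
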