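import Pool.Agent.TH767.LA.Bad

/-!
Every truthful and rational mechanism which does not serve bidder `k` has revenue at most the total
dual weight.
-/

set_option autoImplicit false

namespace Pool.Agent.TH767.LA

open Finset

namespace Par

variable (P : Par)

theorem V_castSucc (j : Fin P.k) (s : ℕ) (b : Fin P.k → ℕ) (i : Fin P.k) :
    P.V j s b i.castSucc = P.prof j s b i := by
  unfold V
  rw [Fin.snoc_castSucc]

theorem V_last (j : Fin P.k) (s : ℕ) (b : Fin P.k → ℕ) : P.V j s b (Fin.last P.k) = 1 := by
  unfold V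
  rw [Fin.snoc_last]

theorem V_self (j : Fin P.k) (s : ℕ) (b : Fin P.k → ℕ) : P.V j s b j.castSucc = P.r s := by
  rw [V_castSucc, prof, if_pos rfl]

theorem V_other {j i : Fin P.k} (h : i ≠ j) (s : ℕ) (b : Fin P.k → ℕ) :
    P.V j s b i.castSucc = P.β (b i) := by
  rw [V_castSucc, prof, if_neg h]

theorem V_gt (j : Fin P.k) {s : ℕ} (hs : s < P.m) (b : Fin P.k → ℕ) (i : Fin P.k) :
    1 < P.V j s b i.castSucc := by
  by_cases h : i = j
  · subst h
    rw [V_self]
    have := P.r_gt hs
    have := P.hε
    linarith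
  · rw [P.V_other h]
    exact P.β_gt _

theorem V_pos (j : Fin P.k) {s : ℕ} (hs : s < P.m) (b : Fin P.k → ℕ) (i : Fin (P.k + 1)) :
    0 < P.V j s b i := by
  refine Fin.lastCases ?_ (fun i => ?_) i
  · rw [V_last]
    norm_num
  · have := P.V_gt j hs b i
    linarith

theorem V_update_self (j : Fin P.k) (s s' : ℕ) (b : Fin P.k → ℕ) :
    Function.update (P.V j s b) j.castSucc (P.r s') = P.V j s' b := by
  funext i
  refine Fin.lastCases ?_ (fun i => ?_) i
  · rw [Function.update_of_ne (Fin.castSucc_lt_last j).ne', V_last, V_last]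
  · by_cases h : i = j
    · subst h
      rw [Function.update_self, V_self]
    · rw [Function.update_of_ne (fun h' => h (Fin.castSucc_injective _ h')), P.V_other h,
        P.V_other h]

theorem V_update_other {j i : Fin P.k} (hij : i ≠ j) (s : ℕ) (b : Fin P.k → ℕ) (a a' : ℕ) :
    Function.update (P.V j s (Function.update b i a)) i.castSucc (P.β a') =
      P.V j s (Function.update b i a') := by
  funext i'
  refine Fin.lastCases ?_ (fun i' => ?_) i'
  · rw [Function.update_of_ne (Fin.castSucc_lt_last i).ne', V_last, V_last]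
  · by_cases h : i' = i
    · subst h
      rw [Function.update_self, P.V_other hij, Function.update_self]
    · rw [Function.update_of_ne (fun h' => h (Fin.castSucc_injective _ h'))]
      by_cases h' : i' = j
      · subst h'
        rw [V_self, V_self]
      · rw [P.V_other h', P.V_other h', Function.update_of_ne h, Function.update_of_ne h]

theorem bidder_bound (N : Mechanism (P.k + 1)) (hN : N.Valid) (i j : Fin P.k) :
    ∑ b ∈ box P.k P.L, ∑ s ∈ range P.m, P.wt j s b * N.pay (P.V j s b) i.castSucc ≤
      ∑ b ∈ box P.k P.L, ∑ s ∈ range P.m, P.z j s b * N.alloc (P.V j s b) i.castSucc := by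
  by_cases hij : i = j
  · subst hij
    refine Finset.sum_le_sum fun b _ => ?_
    refine line_duality P.m P.r (fun s => P.wt i s b) (fun s => P.z i s b)
      (fun s => N.alloc (P.V i s b) i.castSucc) (fun s => N.pay (P.V i s b) i.castSucc)
      ?_ ?_ ?_ ?_ ?_ ?_
    · exact fun s hs => P.r_lt hs
    · exact fun s hs => P.wt_nonneg i hs b
    · exact fun s hs => hN.nonneg _ (P.V_pos i hs b) _
    · intro s hs
      have := hN.rational _ (P.V_pos i hs b) i.castSucc
      rw [V_self] at this
      linarith
    · intro s s' hs hs'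
      have := hN.truthful _ (P.V_pos i hs b) i.castSucc (P.r s') (P.r_pos hs')
      rw [V_self, V_update_self] at this
      exact this
    · exact fun s hs => P.line_exc i b hs
  · rw [Finset.sum_comm, Finset.sum_comm (s := box P.k P.L)]
    refine Finset.sum_le_sum fun s hs => ?_
    have hs' : s < P.m := Finset.mem_range.1 hs
    refine box_le P.hL i _ _ fun b _ => ?_
    refine line_duality P.L P.β (fun a => P.wt j s (Function.update b i a))
      (fun a => P.z j s (Function.update b i a))
      (fun a => N.alloc (P.V j s (Function.update b i a)) i.castSucc)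
      (fun a => N.pay (P.V j s (Function.update b i a)) i.castSucc) ?_ ?_ ?_ ?_ ?_ ?_
    · exact fun a _ => P.β_lt (Nat.lt_succ_self a)
    · exact fun a _ => P.wt_nonneg j hs' _
    · exact fun a _ => hN.nonneg _ (P.V_pos j hs' _) _
    · intro a _
      have := hN.rational _ (P.V_pos j hs' (Function.update b i a)) i.castSucc
      rw [P.V_other hij, Function.update_self] at this
      linarith
    · intro a a' _ _
      have h0 : 0 < P.β a' := by
        have := P.β_gt a'
        linarith
      have := hN.truthful _ (P.V_pos j hs' (Function.update b i a)) i.castSucc (P.β a') h0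
      rw [P.V_other hij, Function.update_self, P.V_update_other hij] at this
      exact this
    · exact fun a ha => P.line_other j i hij b hs' ha

theorem sum4 {k : ℕ} (A : Finset (Fin k → ℕ)) (B : Finset ℕ)
    (F : Fin k → Fin k → (Fin k → ℕ) → ℕ → ℝ) :
    ∑ i, ∑ j, ∑ b ∈ A, ∑ s ∈ B, F i j b s = ∑ j, ∑ b ∈ A, ∑ s ∈ B, ∑ i, F i j b s := by
  rw [Finset.sum_comm]
  refine Finset.sum_congr rfl fun j _ => ?_
  rw [Finset.sum_comm]
  refine Finset.sum_congr rfl fun b _ => ?_
  rw [Finset.sum_comm]

/-- The total dual weight. -/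
noncomputable def Z : ℝ := ∑ j : Fin P.k, ∑ b ∈ box P.k P.L, ∑ s ∈ range P.m, P.z j s b

theorem upper (N : Mechanism (P.k + 1)) (hN : N.Valid)
    (hl : N.ServesOnly (univ.erase (Fin.last P.k))) :
    ∑ j : Fin P.k, ∑ b ∈ box P.k P.L, ∑ s ∈ range P.m,
      P.wt j s b * ∑ i, N.pay (P.V j s b) i ≤ P.Z := by
  have h1 : ∀ v : Fin (P.k + 1) → ℝ, ∑ i, N.pay v i = ∑ i : Fin P.k, N.pay v i.castSucc := by
    intro v
    rw [Fin.sum_univ_castSucc, (hl v (Fin.last P.k) (by simp)).2, add_zero]
  calc ∑ j : Fin P.k, ∑ b ∈ box P.k P.L, ∑ s ∈ range P.m,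
        P.wt j s b * ∑ i, N.pay (P.V j s b) i
      = ∑ i : Fin P.k, ∑ j : Fin P.k, ∑ b ∈ box P.k P.L, ∑ s ∈ range P.m,
        P.wt j s b * N.pay (P.V j s b) i.castSucc := by
        rw [sum4]
        refine Finset.sum_congr rfl fun j _ => Finset.sum_congr rfl fun b _ =>
          Finset.sum_congr rfl fun s _ => ?_
        rw [h1, Finset.mul_sum]
    _ ≤ ∑ i : Fin P.k, ∑ j : Fin P.k, ∑ b ∈ box P.k P.L, ∑ s ∈ range P.m,
        P.z j s b * N.alloc (P.V j s b) i.castSucc :=
        Finset.sum_le_sum fun i _ => Finset.sum_le_sum fun j _ => P.bidder_bound N hN i j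
    _ = ∑ j : Fin P.k, ∑ b ∈ box P.k P.L, ∑ s ∈ range P.m,
        P.z j s b * ∑ i : Fin P.k, N.alloc (P.V j s b) i.castSucc := by
        rw [sum4]
        refine Finset.sum_congr rfl fun j _ => Finset.sum_congr rfl fun b _ =>
          Finset.sum_congr rfl fun s _ => ?_
        rw [Finset.mul_sum]
    _ ≤ P.Z := by
        refine Finset.sum_le_sum fun j _ => Finset.sum_le_sum fun b _ =>
          Finset.sum_le_sum fun s hs => ?_
        have hs' : s < P.m := Finset.mem_range.1 hs
        refine mul_le_of_le_one_right (P.z_nonneg j s b) ?_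
        have h2 := hN.feasible _ (P.V_pos j hs' b)
        have h3 := hN.nonneg _ (P.V_pos j hs' b) (Fin.last P.k)
        rw [Fin.sum_univ_castSucc] at h2
        linarith

end Par

end Pool.Agent.TH767.LA
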